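import Pool.Agent.Q1.BE.UniF
import Pool.Agent.Q1.SL.EmbC

/-!
Families of points of bounded degree over arbitrary fields of characteristic zero.
-/

set_option autoImplicit false

namespace Pool.Agent.Q1.BD

open Filter Polynomial Pool.Agent.Q1.SL Pool.Agent.Y377.IL Pool.Agent.Y377.IR
  Pool.Agent.Y377.ST IntermediateField Cardinal

theorem iterFam_of_vec {L H ι : Type} [CommRing L] [Group H] [Fintype ι] {s r e : ℕ}
    {z : H → Fin (Fintype.card ι) → L} (hz : IterVec s r e z) :
    IterFam s r e fun h q => z h (Fintype.equivFin ι q) := by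
  obtain ⟨X, Y, hX, hc⟩ := hz
  exact ⟨X, Y, hX, fun q => hc _⟩

/-- the number of the points -/
theorem card_false {K : Type} [Field K] {n B : ℕ} {R : Set (Projectivization K (Fin (n + 1) → K))}
    (y : Fin (B + 1) → Fin (n + 1) → K) (h0 : ∀ i, y i ≠ 0)
    (hcr : ∀ i j, i ≠ j → ∃ u v, y i u * y j v ≠ y i v * y j u)
    (hR : ∀ i, Projectivization.mk K (y i) (h0 i) ∈ R) (hB : R.encard ≤ (B : ℕ∞)) : False := by
  let f : Fin (B + 1) → Projectivization K (Fin (n + 1) → K) := fun i =>
    Projectivization.mk K (y i) (h0 i)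
  have hf : Function.Injective f := by
    intro i j hij
    by_contra hne
    obtain ⟨u, v, huv⟩ := hcr i j hne
    apply huv
    obtain ⟨c, hc⟩ := (Projectivization.mk_eq_mk_iff' K _ _ (h0 i) (h0 j)).1 hij
    have hcu : ∀ w, y i w = c * y j w := by
      intro w
      have h6 := congrFun hc w
      rw [Pi.smul_apply, smul_eq_mul] at h6
      exact h6.symm
    rw [hcu u, hcu v]
    ring
  have hr : Set.range f ⊆ R := by
    rintro _ ⟨i, rfl⟩
    exact hR i
  have h8 := hf.encard_range.trans ((Set.encard_le_encard hr).trans hB)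
  rw [ENat.card_eq_coe_fintype_card, Fintype.card_fin] at h8
  have h9 : B + 1 ≤ B := by exact_mod_cast h8
  omega

theorem finite_spanG {k : Type} [Field k] {n : ℕ} (S : Set (MvPolynomial (Fin n) k)) :
    ∃ S0 : Finset (MvPolynomial (Fin n) k), (S0 : Set (MvPolynomial (Fin n) k)) ⊆ S ∧
      ∀ (B : Type) [CommRing B] [Algebra k B] (p : Fin n → B),
        (∀ F ∈ (S0 : Set (MvPolynomial (Fin n) k)), MvPolynomial.aeval p F = 0) →
          ∀ F ∈ S, MvPolynomial.aeval p F = 0 := by
  have hfg : (Ideal.span S).FG := IsNoetherian.noetherian _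
  obtain ⟨S0, h1, h2⟩ := (Submodule.fg_span_iff_fg_span_finset_subset _).1 hfg
  refine ⟨S0, h1, fun B _ _ p h F hF => ?_⟩
  have h3 : F ∈ Ideal.span (S0 : Set (MvPolynomial (Fin n) k)) := by
    have h4 : F ∈ Ideal.span S := Ideal.subset_span hF
    unfold Ideal.span at h4 ⊢
    rwa [h2] at h4
  have h5 : Ideal.span (S0 : Set (MvPolynomial (Fin n) k)) ≤
      RingHom.ker (MvPolynomial.aeval p : MvPolynomial (Fin n) k →ₐ[k] B) := by
    rw [Ideal.span_le]
    intro G hG
    exact h G hG
  exact h5 h3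

/-- families over fields embeddable in `ℂ` -/
theorem gon_emb (n D d s r e : ℕ) : ∃ δ B : ℕ,
    ∀ (k : Type) [Field k] [CharZero k] (S : Set (MvPolynomial (Fin (n + 1)) k))
      (G : MvPolynomial (Fin (n + 1)) k),
      (∀ F ∈ S, ∃ e, e ≤ D ∧ F.IsHomogeneous e) → (∃ e, e ≤ D ∧ G.IsHomogeneous e) →
      GonFree (MvPolynomial.map (algebraMap k (AlgebraicClosure k)) '' S)
        (MvPolynomial.map (algebraMap k (AlgebraicClosure k)) G) d δ →
      ∀ (L : Type) [Field L] [Algebra k L] (_ : L →+* ℂ) (H : Type) [Group H]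
        (x : H → Jx n d → L), IterFam s r e x →
        (∀ h α, (Pol (bar (x h))).eval α = 0 → ∀ F ∈ S,
          MvPolynomial.aeval (Num (bar (x h)) α) F = 0) →
        (rootPts G x).encard ≤ (B : ℕ∞) := by
  obtain ⟨δ, B, hB⟩ := gonF_uniform n D d s r e
  refine ⟨δ, B, fun k _ _ S G hS hG hfree L _ _ τ H _ x hx hF => ?_⟩
  by_contra hcon
  obtain ⟨σ, H', iH', z, hz, hzF, hs, as, h1, h2, h3, h4⟩ := exists_seqR τ hx hF hcon
  let _ : Algebra k ℂ := σ.toAlgebra
  let σ' : AlgebraicClosure k →ₐ[k] ℂ := IsAlgClosed.lift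
  have hcomp : (σ' : AlgebraicClosure k →+* ℂ).comp (algebraMap k (AlgebraicClosure k)) = σ :=
    σ'.comp_algebraMap
  have hfr := hfree.up (σ' : AlgebraicClosure k →+* ℂ)
  have e1 : MvPolynomial.map (σ' : AlgebraicClosure k →+* ℂ) ''
      (MvPolynomial.map (algebraMap k (AlgebraicClosure k)) '' S) =
        MvPolynomial.map σ '' S := by
    rw [Set.image_image]
    refine Set.image_congr fun F _ => ?_
    rw [MvPolynomial.map_map, hcomp]
  rw [e1, MvPolynomial.map_map, hcomp] at hfr
  have h5 := hB (MvPolynomial.map σ '' S) (MvPolynomial.map σ G) (by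
    rintro _ ⟨F, hFS, rfl⟩
    obtain ⟨e, he, hFe⟩ := hS F hFS
    exact ⟨e, he, hFe.map σ⟩) (by
    obtain ⟨e, he, hFe⟩ := hG
    exact ⟨e, he, hFe.map σ⟩) hfr H' (fun h q => z h (Fintype.equivFin _ q))
    (iterFam_of_vec hz) (by
    rintro h α hα _ ⟨F, hFS, rfl⟩
    rw [MvPolynomial.eval_map]
    exact hzF h α hα F hFS)
  refine card_false (fun i : Fin (B + 1) =>
    Num (fun q => z (hs i) (Fintype.equivFin _ q)) (as i)) (fun i => h2 i) (fun i j hij => ?_)
    (fun i => ?_) h5
  · exact h4 i j (by omega) (by omega) fun h => hij (Fin.ext h)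
  · exact ⟨hs i, as i, h2 i, h1 i, by
      rw [MvPolynomial.eval_map]
      exact h3 i, rfl⟩

/-- different points -/
theorem exists_finR {k : Type} [Field k] {n d : ℕ} {G : MvPolynomial (Fin (n + 1)) k}
    {L : Type} [Field L] [Algebra k L] {H : Type} {x : H → Jx n d → L} {B : ℕ}
    (hB : ¬ (rootPts G x).encard ≤ (B : ℕ∞)) :
    ∃ (hs : Fin (B + 1) → H) (as : Fin (B + 1) → AlgebraicClosure L),
      (∀ i, (Pol (bar (x (hs i)))).eval (as i) = 0) ∧
      (∀ i, Num (bar (x (hs i))) (as i) ≠ 0) ∧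
      (∀ i, MvPolynomial.aeval (Num (bar (x (hs i))) (as i)) G ≠ 0) ∧
      ∀ i j, i ≠ j → ∃ u v,
        Num (bar (x (hs i))) (as i) u * Num (bar (x (hs j))) (as j) v ≠
          Num (bar (x (hs i))) (as i) v * Num (bar (x (hs j))) (as j) u := by
  classical
  have h1 : ((B + 1 : ℕ) : ℕ∞) ≤ (rootPts G x).encard := by
    rw [Nat.cast_add, Nat.cast_one]
    exact Order.add_one_le_of_lt (not_le.1 hB)
  obtain ⟨t, hts, htc⟩ := Set.exists_subset_encard_eq h1
  have htf : t.Finite := Set.finite_of_encard_eq_coe htc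
  have hcard : htf.toFinset.card = B + 1 := by
    have h2 := htf.encard_eq_coe_toFinset_card
    rw [htc] at h2
    exact_mod_cast h2.symm
  let P : Fin (B + 1) ≃ htf.toFinset := (Finset.equivFinOfCardEq hcard).symm
  have hP : ∀ i : Fin (B + 1), ((P i : htf.toFinset) :
      Projectivization (AlgebraicClosure L) (Fin (n + 1) → AlgebraicClosure L)) ∈ rootPts G x :=
    fun i => hts (htf.mem_toFinset.1 (P i).2)
  choose hs0 as0 h0 hr0 hG0 hPe using hP
  refine ⟨hs0, as0, hr0, h0, hG0, fun i j hij => ?_⟩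
  by_contra hcon
  push Not at hcon
  apply hij
  apply P.injective
  apply Subtype.ext
  rw [hPe i, hPe j, Projectivization.mk_eq_mk_iff']
  obtain ⟨v0, hv0⟩ := Function.ne_iff.1 (h0 j)
  have hv0' : Num (bar (x (hs0 j))) (as0 j) v0 ≠ 0 := hv0
  refine ⟨Num (bar (x (hs0 i))) (as0 i) v0 / Num (bar (x (hs0 j))) (as0 j) v0, ?_⟩
  funext u
  rw [Pi.smul_apply, smul_eq_mul]
  have h2 := hcon u v0
  rw [div_mul_eq_mul_div, ← h2, mul_div_assoc, div_self hv0', mul_one]

theorem lift_form {k : Type} [Field k] [CharZero k] {n : ℕ} (L : IntermediateField ℚ k)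
    (F : MvPolynomial (Fin n) k) (h : ∀ m, MvPolynomial.coeff m F ∈ L) :
    ∃ F' : MvPolynomial (Fin n) L, MvPolynomial.map (algebraMap L k) F' = F := by
  classical
  refine ⟨∑ m ∈ F.support, MvPolynomial.monomial m ⟨MvPolynomial.coeff m F, h m⟩, ?_⟩
  rw [map_sum]
  conv_rhs => rw [F.as_sum]
  refine Finset.sum_congr rfl fun m _ => ?_
  rw [MvPolynomial.map_monomial]
  rfl

theorem homog_of_map {A B : Type} [CommRing A] [CommRing B] {f : A →+* B}
    (hf : Function.Injective f) {n : ℕ} {F : MvPolynomial (Fin n) A} {e : ℕ}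
    (h : (MvPolynomial.map f F).IsHomogeneous e) : F.IsHomogeneous e := by
  intro m hm
  apply h
  rw [MvPolynomial.coeff_map]
  intro h0
  exact hm (hf (by rw [h0, map_zero]))

/-- **Families over arbitrary fields of characteristic zero.** -/
theorem gon_fields (n D d s r e : ℕ) : ∃ δ B : ℕ,
    ∀ (k : Type) [Field k] [CharZero k] [IsAlgClosed k]
      (S : Set (MvPolynomial (Fin (n + 1)) k)) (G : MvPolynomial (Fin (n + 1)) k),
      (∀ F ∈ S, ∃ e, e ≤ D ∧ F.IsHomogeneous e) → (∃ e, e ≤ D ∧ G.IsHomogeneous e) →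
      GonIn S G d δ → ∀ (L : Type) [Field L] [Algebra k L] (H : Type) [Group H]
        (x : H → Jx n d → L), IterFam s r e x →
        (∀ h α, (Pol (bar (x h))).eval α = 0 → ∀ F ∈ S,
          MvPolynomial.aeval (Num (bar (x h)) α) F = 0) →
        (rootPts G x).encard ≤ (B : ℕ∞) := by
  classical
  obtain ⟨δ, B, hd⟩ := gon_emb n D d s r e
  refine ⟨δ, B, fun k _ _ _ S G hS hG hgi L _ _ H _ x hx hF => ?_⟩
  by_contra hcon
  obtain ⟨S0, hS0, hS0'⟩ := finite_spanG S
  obtain ⟨hs, as, hroot, h0, hoff, hcr⟩ := exists_finR hcon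
  have hcL0 : CharZero L := charZero_of_injective_algebraMap (algebraMap k L).injective
  have hcK0 : CharZero (AlgebraicClosure L) :=
    charZero_of_injective_algebraMap (algebraMap L (AlgebraicClosure L)).injective
  -- the field of definition of the variety
  let C0 : Set k := (⋃ F ∈ S0, Set.range fun m => MvPolynomial.coeff m F) ∪
    Set.range fun m => MvPolynomial.coeff m G
  have hC0 : C0.Countable := Set.Countable.union
    ((S0.countable_toSet).biUnion fun F _ => Set.countable_range _) (Set.countable_range _)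
  let k0 : IntermediateField ℚ k := IntermediateField.adjoin ℚ C0
  have hk0 : #k0 ≤ ℵ₀ := by
    refine (IntermediateField.cardinalMk_adjoin_le ℚ C0).trans ?_
    exact max_le (max_le Cardinal.mk_le_aleph0 hC0.le_aleph0) le_rfl
  have hk0c : Countable k0 := Cardinal.mk_le_aleph0_iff.1 hk0
  have hC0k : C0 ⊆ k0 := IntermediateField.subset_adjoin ℚ C0
  obtain ⟨G', hG'⟩ := lift_form k0 G fun m => hC0k (Or.inr ⟨m, rfl⟩)
  let S' : Set (MvPolynomial (Fin (n + 1)) k0) := {F' | MvPolynomial.map (algebraMap k0 k) F' ∈ S0}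
  have hS' : MvPolynomial.map (algebraMap k0 k) '' S' =
      (S0 : Set (MvPolynomial (Fin (n + 1)) k)) := by
    ext F
    constructor
    · rintro ⟨F', hF', rfl⟩
      exact hF'
    · intro hF
      obtain ⟨F', hF'⟩ := lift_form k0 F fun m => hC0k (Or.inl (Set.mem_biUnion hF ⟨m, rfl⟩))
      refine ⟨F', ?_, hF'⟩
      change MvPolynomial.map (algebraMap k0 k) F' ∈ S0
      rw [hF']
      exact hF
  have hfree : GonFree (MvPolynomial.map (algebraMap k0 (AlgebraicClosure k0)) '' S')
      (MvPolynomial.map (algebraMap k0 (AlgebraicClosure k0)) G') d δ := by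
    have h1 : GonFree (S0 : Set (MvPolynomial (Fin (n + 1)) k)) G d δ := hgi.free.anti hS0'
    let φ : AlgebraicClosure k0 →ₐ[k0] k := IsAlgClosed.lift
    have hφ : (φ : AlgebraicClosure k0 →+* k).comp (algebraMap k0 (AlgebraicClosure k0)) =
        algebraMap k0 k := φ.comp_algebraMap
    refine GonFree.down (φ : AlgebraicClosure k0 →+* k) ?_
    have e1 : MvPolynomial.map (φ : AlgebraicClosure k0 →+* k) ''
        (MvPolynomial.map (algebraMap k0 (AlgebraicClosure k0)) '' S') =
          MvPolynomial.map (algebraMap k0 k) '' S' := by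
      rw [Set.image_image]
      refine Set.image_congr fun F _ => ?_
      rw [MvPolynomial.map_map, hφ]
    rw [e1, MvPolynomial.map_map, hφ, hS', hG']
    exact h1
  -- the field of definition of the points
  let C1 : Set (AlgebraicClosure L) :=
    (Set.range fun c : k0 => algebraMap k (AlgebraicClosure L) (algebraMap k0 k c)) ∪
      Set.range as
  have hC1 : C1.Countable := Set.Countable.union (Set.countable_range _) (Set.countable_range _)
  let k1 : IntermediateField ℚ (AlgebraicClosure L) := IntermediateField.adjoin ℚ C1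
  have hk1 : #k1 ≤ ℵ₀ := by
    refine (IntermediateField.cardinalMk_adjoin_le ℚ C1).trans ?_
    exact max_le (max_le Cardinal.mk_le_aleph0 hC1.le_aleph0) le_rfl
  have hk1c : Countable k1 := Cardinal.mk_le_aleph0_iff.1 hk1
  have hC1k : C1 ⊆ k1 := IntermediateField.subset_adjoin ℚ C1
  let j : k0 →+* k1 := RingHom.codRestrict
    ((algebraMap k (AlgebraicClosure L)).comp (algebraMap k0 k)) k1 fun c =>
      hC1k (Or.inl ⟨c, rfl⟩)
  have hj : ∀ c, algebraMap k1 (AlgebraicClosure L) (j c) =
      algebraMap k (AlgebraicClosure L) (algebraMap k0 k c) := fun c => rfl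
  let N : Subgroup H := (FreeGroup.lift hs).range
  have hNc : Countable N := (MonoidHom.rangeRestrict_surjective (FreeGroup.lift hs)).countable
  obtain ⟨L', iL, iA, hLc, ι, x', hx', hιx⟩ := Pool.Agent.Q1.SL.descend (k0 := k1)
    (iterVec_sub (hx.vec.map (algebraMap L (AlgebraicClosure L))) N)
  have hcL : CharZero L' := RingHom.charZero (ι : L' →+* AlgebraicClosure L)
  obtain ⟨τ⟩ := exists_embed L'
  let iA0 : Algebra k0 L' := ((algebraMap k1 L').comp j).toAlgebra
  let iAK : Algebra L' (AlgebraicClosure L) := (ι : L' →+* AlgebraicClosure L).toAlgebra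
  let a1 : AlgebraicClosure L' →ₐ[L'] AlgebraicClosure L := IsAlgClosed.lift
  have ha1 : ∀ c : L', a1 (algebraMap L' _ c) = ι c := fun c => a1.commutes c
  let x'' : N → Jx n d → L' := fun h q => x' h (Fintype.equivFin _ q)
  have hbar : ∀ (h : N), (fun q => (a1 : AlgebraicClosure L' →+* AlgebraicClosure L)
      (bar (x'' h) q)) = bar (x h) := by
    intro h
    funext q
    change a1 (algebraMap L' _ (x' h (Fintype.equivFin _ q))) = _
    rw [ha1, hιx]
    change algebraMap L (AlgebraicClosure L) (x h ((Fintype.equivFin _).symm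
      (Fintype.equivFin _ q))) = _
    rw [Equiv.symm_apply_apply]
    rfl
  have hnum : ∀ (h : N) α u, Num (bar (x h)) (a1 α) u = a1 (Num (bar (x'' h)) α u) := by
    intro h α u
    rw [← hbar h]
    exact num_map (a1 : AlgebraicClosure L' →+* AlgebraicClosure L) (bar (x'' h)) α u
  have hpol : ∀ (h : N) α, (Pol (bar (x h))).eval (a1 α) = a1 ((Pol (bar (x'' h))).eval α) := by
    intro h α
    rw [← hbar h]
    exact eval_pol_map (a1 : AlgebraicClosure L' →+* AlgebraicClosure L) (bar (x'' h)) α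
  have hcomp : ((a1 : AlgebraicClosure L' →+* AlgebraicClosure L)).comp
      (algebraMap k0 (AlgebraicClosure L')) =
        (algebraMap k (AlgebraicClosure L)).comp (algebraMap k0 k) := by
    refine RingHom.ext fun c => ?_
    change a1 (algebraMap k0 (AlgebraicClosure L') c) = _
    rw [IsScalarTower.algebraMap_apply k0 L' (AlgebraicClosure L'), ha1]
    change ι (algebraMap k1 L' (j c)) = _
    rw [ι.commutes]
    exact hj c
  have hev : ∀ (h : N) α (F' : MvPolynomial (Fin (n + 1)) k0),
      MvPolynomial.aeval (Num (bar (x h)) (a1 α)) (MvPolynomial.map (algebraMap k0 k) F') =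
        a1 (MvPolynomial.aeval (Num (bar (x'' h)) α) F') := by
    intro h α F'
    have h1 := MvPolynomial.eval₂_comp_left (a1 : AlgebraicClosure L' →+* AlgebraicClosure L)
      (algebraMap k0 (AlgebraicClosure L')) (Num (bar (x'' h)) α) F'
    rw [hcomp] at h1
    refine Eq.trans ?_ h1.symm
    rw [MvPolynomial.aeval_def, MvPolynomial.eval₂_map]
    congr 1
    funext u
    exact hnum h α u
  have h5 := hd k0 S' G' (by
    intro F' hF'
    obtain ⟨e', he', hFe⟩ := hS _ (hS0 hF')
    exact ⟨e', he', homog_of_map (algebraMap k0 k).injective hFe⟩) (by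
    obtain ⟨e', he', hFe⟩ := hG
    rw [← hG'] at hFe
    exact ⟨e', he', homog_of_map (algebraMap k0 k).injective hFe⟩) hfree L' τ N x''
    (iterFam_of_vec hx') (by
    intro h α hα F' hF'
    have h1 : a1 (MvPolynomial.aeval (Num (bar (x'' h)) α) F') = 0 := by
      rw [← hev]
      refine hF h (a1 α) ?_ _ (hS0 hF')
      rw [hpol, hα, map_zero]
    exact (map_eq_zero a1).1 h1)
  let hs' : Fin (B + 1) → N := fun i => ⟨hs i, FreeGroup.of i, FreeGroup.lift_apply_of⟩
  let as' : Fin (B + 1) → AlgebraicClosure L' := fun i =>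
    algebraMap L' _ (algebraMap k1 L' ⟨as i, hC1k (Or.inr ⟨i, rfl⟩)⟩)
  have has : ∀ i, a1 (as' i) = as i := by
    intro i
    change a1 (algebraMap L' _ _) = _
    rw [ha1, ι.commutes]
    rfl
  have hnum' : ∀ i u, Num (bar (x (hs i))) (as i) u = a1 (Num (bar (x'' (hs' i))) (as' i) u) := by
    intro i u
    rw [← has i]
    exact hnum (hs' i) (as' i) u
  refine card_false (fun i => Num (bar (x'' (hs' i))) (as' i)) (fun i h6 => h0 i ?_)
    (fun i j hij => ?_) (fun i => ?_) h5
  · funext u
    rw [hnum', h6, Pi.zero_apply, map_zero]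
    rfl
  · obtain ⟨u, v, huv⟩ := hcr i j hij
    refine ⟨u, v, fun h6 => huv ?_⟩
    rw [hnum', hnum', hnum', hnum', ← map_mul, ← map_mul, h6]
  · refine ⟨hs' i, as' i, _, ?_, ?_, rfl⟩
    · have h6 := hpol (hs' i) (as' i)
      rw [has i] at h6
      exact (map_eq_zero a1).1 (h6.symm.trans (hroot i))
    · intro h6
      apply hoff i
      have h7 := hev (hs' i) (as' i) G'
      rw [has i, hG', h6, map_zero] at h7
      exact h7

end Pool.Agent.Q1.BD
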