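import Pool.Agent.Q1.BE.AllF

/-!
Families of varieties: one closed subset of the total space and one bound for all fibres outside of
a proper closed subset of the base.
-/

set_option autoImplicit false

namespace Pool.Agent.Q1.BD

open Filter Polynomial Pool.Agent.Q1.SL Pool.Agent.Y377.IL Pool.Agent.Y377.IR
  Pool.Agent.Y377.ST IntermediateField Cardinal

/-- a sequence of points of the base which avoids all proper closed subsets -/
theorem exists_generic {A : Type} [CommRing A] [IsDomain A] [Countable A]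
    {P : (A →+* ℂ) → Prop}
    (h : ∀ a : A, a ≠ 0 → ∃ τ : A →+* ℂ, τ a ≠ 0 ∧ P τ) :
    ∃ τ : ℕ → A →+* ℂ, (∀ i, P (τ i)) ∧ ∀ a, a ≠ 0 → ∃ j, ∀ i, j ≤ i → τ i a ≠ 0 := by
  classical
  let S : Type := {a : A // a ≠ 0}
  have hne : Nonempty S := ⟨⟨1, one_ne_zero⟩⟩
  obtain ⟨en, hen⟩ := exists_surjective_nat S
  have h1 : ∀ i : ℕ, ∏ j ∈ Finset.range (i + 1), (en j).1 ≠ 0 := fun i =>
    Finset.prod_ne_zero_iff.2 fun j _ => (en j).2
  choose τ hτ hP using fun i => h _ (h1 i)
  refine ⟨τ, hP, fun a ha => ?_⟩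
  obtain ⟨j, hj⟩ := hen ⟨a, ha⟩
  refine ⟨j, fun i hi h0 => hτ i ?_⟩
  have h2 : (en j).1 ∣ ∏ j ∈ Finset.range (i + 1), (en j).1 :=
    Finset.dvd_prod_of_mem (fun j => (en j).1) (Finset.mem_range.2 (by omega))
  rw [hj] at h2
  obtain ⟨c, hc⟩ := h2
  rw [hc, map_mul, h0, zero_mul]

theorem gen_inj {θ : (ℕ → ℂ) →+* ℂ}
    (hk : ∀ c : ℕ → ℂ, θ c = 0 ↔ ∀ᶠ i in (hyperfilter ℕ : Filter ℕ), c i = 0)
    {A : Type} [CommRing A] {τ : ℕ → A →+* ℂ}
    (hτ : ∀ a, a ≠ 0 → ∃ j, ∀ i, j ≤ i → τ i a ≠ 0) :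
    Function.Injective (θ.comp (RingHom.pi τ)) := by
  rw [injective_iff_map_eq_zero]
  intro a ha
  by_contra hne
  obtain ⟨j, hj⟩ := hτ a hne
  have h1 := (hk _).1 ha
  have h2 : ∀ᶠ i in (hyperfilter ℕ : Filter ℕ), j ≤ i := by
    have h3 : ∀ᶠ i : ℕ in cofinite, j ≤ i := by
      rw [Nat.cofinite_eq_atTop]
      exact eventually_ge_atTop j
    exact h3.filter_mono hyperfilter_le_cofinite
  obtain ⟨i, h3, h4⟩ := (h1.and h2).exists
  exact hj i h4 h3

theorem key_eval (θ : (ℕ → ℂ) →+* ℂ) {A : Type} [CommRing A] (τ : ℕ → A →+* ℂ) {N : ℕ}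
    (F : MvPolynomial (Fin N) A) (w : ℕ → Fin N → ℂ) :
    MvPolynomial.eval₂ (θ.comp (RingHom.pi τ)) (fun u => θ fun i => w i u) F =
      θ fun i => MvPolynomial.eval₂ (τ i) (w i) F := by
  have h1 := MvPolynomial.eval₂_comp_left θ (RingHom.pi τ) (fun u i => w i u) F
  have h2 : MvPolynomial.eval₂ (RingHom.pi τ) (fun u i => w i u) F =
      fun i => MvPolynomial.eval₂ (τ i) (w i) F := by
    funext i
    exact MvPolynomial.eval₂_comp_left (Pi.evalRingHom (fun _ : ℕ => ℂ) i) (RingHom.pi τ)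
      (fun u i => w i u) F
  rw [h2] at h1
  exact h1.symm

section lft

variable {A : Type} [CommRing A] [IsDomain A] {K : Type} [Field K] [Algebra A K]
  [IsFractionRing A K] {σ : A →+* ℂ}

/-- the homomorphism from the function field of the base -/
noncomputable def sK (hσ : Function.Injective σ) : K →+* ℂ := IsFractionRing.lift hσ

theorem sK_comp (hσ : Function.Injective σ) :
    (sK (K := K) hσ).comp (algebraMap A K) = σ := by
  ext a
  exact IsFractionRing.lift_algebraMap hσ a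

end lft

/-- **Points of the fibres off `G = 0`.** -/
theorem fam_point {A : Type} [CommRing A] [IsDomain A] [Countable A] {K : Type} [Field K]
    [Algebra A K] [IsFractionRing A K] {N : ℕ} {FF : Set (MvPolynomial (Fin N) A)}
    (hfin : FF.Finite) (G : MvPolynomial (Fin N) A)
    (hprime : (Ideal.span (MvPolynomial.map (algebraMap A K) '' FF)).IsPrime)
    (hG : MvPolynomial.map (algebraMap A K) G ∉
      Ideal.span (MvPolynomial.map (algebraMap A K) '' FF)) :
    ∃ h : A, h ≠ 0 ∧ ∀ τ : A →+* ℂ, τ h ≠ 0 → ∃ P : Fin N → ℂ,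
      (∀ F ∈ FF, MvPolynomial.eval₂ τ P F = 0) ∧ MvPolynomial.eval₂ τ P G ≠ 0 := by
  classical
  by_contra hcon
  have h1 : ∀ a : A, a ≠ 0 → ∃ τ : A →+* ℂ, τ a ≠ 0 ∧ ¬ ∃ P : Fin N → ℂ,
      (∀ F ∈ FF, MvPolynomial.eval₂ τ P F = 0) ∧ MvPolynomial.eval₂ τ P G ≠ 0 := by
    intro a ha
    by_contra h2
    refine hcon ⟨a, ha, fun τ hτ => ?_⟩
    by_contra h3
    exact h2 ⟨τ, hτ, h3⟩
  obtain ⟨τ, hP, hτ⟩ := exists_generic h1
  obtain ⟨θ, hsur, hk⟩ := exists_theta
  have hσ := gen_inj hk hτ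
  let iA : Algebra K ℂ := (sK (K := K) hσ).toAlgebra
  have hco : (algebraMap K ℂ).comp (algebraMap A K) = θ.comp (RingHom.pi τ) := sK_comp hσ
  obtain ⟨x, hx, hxG⟩ : ∃ x ∈ MvPolynomial.zeroLocus ℂ
      (Ideal.span (MvPolynomial.map (algebraMap A K) '' FF)),
      MvPolynomial.aeval x (MvPolynomial.map (algebraMap A K) G) ≠ 0 := by
    by_contra h2
    push Not at h2
    apply hG
    have h3 : MvPolynomial.map (algebraMap A K) G ∈ MvPolynomial.vanishingIdeal K
        (MvPolynomial.zeroLocus ℂ (Ideal.span (MvPolynomial.map (algebraMap A K) '' FF))) := h2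
    rwa [MvPolynomial.IsPrime.vanishingIdeal_zeroLocus] at h3
  have hev : ∀ F : MvPolynomial (Fin N) A,
      MvPolynomial.aeval x (MvPolynomial.map (algebraMap A K) F) =
        MvPolynomial.eval₂ (θ.comp (RingHom.pi τ)) x F := by
    intro F
    rw [MvPolynomial.aeval_def, MvPolynomial.eval₂_map, hco]
  choose w hw using fun u => hsur (x u)
  have hxw : x = fun u => θ fun i => (fun i u => w u i) i u := funext fun u => (hw u).symm
  have h4 : ∀ᶠ i in (hyperfilter ℕ : Filter ℕ), ∀ F ∈ FF,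
      MvPolynomial.eval₂ (τ i) (fun u => w u i) F = 0 := by
    rw [Filter.eventually_all_finite hfin]
    intro F hF
    rw [← hk, ← key_eval θ τ F fun i u => w u i, ← hxw, ← hev]
    exact hx _ (Ideal.subset_span ⟨F, hF, rfl⟩)
  have h5 : ∀ᶠ i in (hyperfilter ℕ : Filter ℕ),
      MvPolynomial.eval₂ (τ i) (fun u => w u i) G ≠ 0 := by
    have h6 : ¬ ∀ᶠ i in (hyperfilter ℕ : Filter ℕ),
        MvPolynomial.eval₂ (τ i) (fun u => w u i) G = 0 := by
      rw [← hk, ← key_eval θ τ G fun i u => w u i, ← hxw, ← hev]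
      exact hxG
    exact Ultrafilter.eventually_not.2 h6
  obtain ⟨i, h6, h7⟩ := (h4.and h5).exists
  exact hP i ⟨_, h6, h7⟩

/-- **One bound for all fibres**, over the complex numbers. -/
theorem fam_C {A : Type} [CommRing A] [IsDomain A] [Countable A] {K : Type} [Field K]
    [Algebra A K] [IsFractionRing A K] {n d s r e : ℕ} (FF : Set (MvPolynomial (Fin (n + 1)) A))
    (G : MvPolynomial (Fin (n + 1)) A) {B : ℕ}
    (hB : ∀ (L : Type) [Field L] [Algebra K L] (_ : L →+* ℂ) (H : Type) [Group H]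
      (x : H → Jx n d → L), IterFam s r e x →
        (∀ h α, (Pol (bar (x h))).eval α = 0 →
          ∀ F ∈ MvPolynomial.map (algebraMap A K) '' FF,
            MvPolynomial.aeval (Num (bar (x h)) α) F = 0) →
        (rootPts (MvPolynomial.map (algebraMap A K) G) x).encard ≤ (B : ℕ∞)) :
    ∃ h : A, h ≠ 0 ∧ ∀ τ : A →+* ℂ, τ h ≠ 0 → ∀ (H : Type) [Group H] (x : H → Jx n d → ℂ),
      IterFam s r e x →
      (∀ h α, (Pol (x h)).eval α = 0 → ∀ F ∈ FF, MvPolynomial.eval₂ τ (Num (x h) α) F = 0) →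
      (rootPtsC (MvPolynomial.map τ G) x).encard ≤ (B : ℕ∞) := by
  classical
  by_contra hcon
  have h1 : ∀ a : A, a ≠ 0 → ∃ τ : A →+* ℂ, τ a ≠ 0 ∧ ∃ (H : Type) (_ : Group H)
      (x : H → Jx n d → ℂ), IterFam s r e x ∧
      (∀ h α, (Pol (x h)).eval α = 0 → ∀ F ∈ FF, MvPolynomial.eval₂ τ (Num (x h) α) F = 0) ∧
      ¬ (rootPtsC (MvPolynomial.map τ G) x).encard ≤ (B : ℕ∞) := by
    intro a ha
    by_contra h2
    refine hcon ⟨a, ha, fun τ hτ H _ x hx hF => ?_⟩
    by_contra h3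
    exact h2 ⟨τ, hτ, H, _, x, hx, hF, h3⟩
  obtain ⟨τ, hP, hτ⟩ := exists_generic h1
  choose Hs iH x hx hF hnb using hP
  choose hs as hrt h0 hoff hnp using fun i => exists_seqG (hnb i)
  obtain ⟨θ, hsur, hk⟩ := exists_theta
  have hΘ : ∀ f : ℕ → ℂ, (∃ n, ∀ i, n ≤ i → f i = 0) → θ f = 0 := by
    rintro f ⟨N, hN⟩
    rw [hk]
    have h1 : ∀ᶠ i : ℕ in cofinite, N ≤ i := by
      rw [Nat.cofinite_eq_atTop]
      exact eventually_ge_atTop N
    filter_upwards [h1.filter_mono hyperfilter_le_cofinite] with i hi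
    exact hN i hi
  have hσ := gen_inj hk hτ
  let iA : Algebra K ℂ := (sK (K := K) hσ).toAlgebra
  have hco : (algebraMap K ℂ).comp (algebraMap A K) = θ.comp (RingHom.pi τ) := sK_comp hσ
  let zs : (∀ i, Hs i) → Fin (Fintype.card (Jx n d)) → ℂ := fun h j =>
    θ fun i => x i (h i) ((Fintype.equivFin _).symm j)
  have hzs : IterVec s r e zs := (IterVec.prod fun i => (hx i).vec).map θ
  let xs : (∀ i, Hs i) → Jx n d → ℂ := fun h q => θ fun i => x i (h i) q
  have hxs : IterFam s r e xs := by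
    have h2 := iterFam_of_vec hzs
    have h3 : (fun (h : ∀ i, Hs i) q => zs h (Fintype.equivFin (Jx n d) q)) = xs := by
      funext h q
      change θ (fun i => x i (h i) ((Fintype.equivFin _).symm (Fintype.equivFin _ q))) = _
      rw [Equiv.symm_apply_apply]
    rwa [h3] at h2
  have hnumS : ∀ (h : ∀ i, Hs i) (b : ℕ → ℂ) u, Num (xs h) (θ b) u =
      θ fun i => Num (x i (h i)) (b i) u := by
    intro h b u
    have h1 := num_map θ (fun q i => x i (h i) q) b u
    refine h1.trans ?_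
    congr 1
    funext i
    exact (num_map (Pi.evalRingHom (fun _ : ℕ => ℂ) i) (fun q i => x i (h i) q) b u).symm
  have hpolS : ∀ (h : ∀ i, Hs i) (b : ℕ → ℂ), (Pol (xs h)).eval (θ b) =
      θ fun i => (Pol (x i (h i))).eval (b i) := by
    intro h b
    have h1 := eval_pol_map θ (fun q i => x i (h i) q) b
    refine h1.trans ?_
    congr 1
    funext i
    exact (eval_pol_map (Pi.evalRingHom (fun _ : ℕ => ℂ) i) (fun q i => x i (h i) q) b).symm
  let a : ℕ → ∀ i, Hs i := fun m i => hs i m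
  let al : ℕ → ℂ := fun m => θ fun i => as i m
  have hevS : ∀ (h : ∀ i, Hs i) (b : ℕ → ℂ) (F : MvPolynomial (Fin (n + 1)) A),
      MvPolynomial.eval₂ (θ.comp (RingHom.pi τ)) (Num (xs h) (θ b)) F =
        θ fun i => MvPolynomial.eval₂ (τ i) (Num (x i (h i)) (b i)) F := by
    intro h b F
    have h1 : Num (xs h) (θ b) = fun u => θ fun i => Num (x i (h i)) (b i) u :=
      funext fun u => hnumS h b u
    rw [h1]
    exact key_eval θ τ F fun i => Num (x i (h i)) (b i)
  have hrootA : ∀ m, (Pol (xs (a m))).eval (al m) = 0 := by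
    intro m
    rw [hpolS]
    have h2 : (fun i => (Pol (x i (a m i))).eval (as i m)) = 0 := funext fun i => hrt i m
    rw [h2, map_zero]
  have hxne : ∀ m, Num (xs (a m)) (al m) ≠ 0 := fun m => by
    obtain ⟨l, hl⟩ := theta_ne hΘ (fun l i => Num (x i (hs i m)) (as i m) l) 0
      fun i _ => Function.ne_iff.1 (h0 i m)
    refine Function.ne_iff.2 ⟨l, ?_⟩
    rw [hnumS]
    exact hl
  have hcross : ∀ m m', m ≤ B → m' ≤ B → m ≠ m' → ∃ u v,
      Num (xs (a m)) (al m) u * Num (xs (a m')) (al m') v ≠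
        Num (xs (a m)) (al m) v * Num (xs (a m')) (al m') u := by
    intro m m' hm hm' hmm
    obtain ⟨⟨u, v⟩, h1⟩ := theta_ne hΘ (fun (p : Fin (n + 1) × Fin (n + 1)) i =>
      Num (x i (hs i m)) (as i m) p.1 * Num (x i (hs i m')) (as i m') p.2 -
        Num (x i (hs i m)) (as i m) p.2 * Num (x i (hs i m')) (as i m') p.1) 0
      (fun i _ => by
        obtain ⟨u, v, h1⟩ := hnp i m m' hm hm' hmm
        exact ⟨(u, v), sub_ne_zero.2 h1⟩)
    refine ⟨u, v, fun h2 => h1 ?_⟩
    rw [hnumS, hnumS, hnumS, hnumS] at h2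
    change θ (fun i => Num (x i (hs i m)) (as i m) u * Num (x i (hs i m')) (as i m') v -
        Num (x i (hs i m)) (as i m) v * Num (x i (hs i m')) (as i m') u) = 0
    have h3 : (fun i => Num (x i (hs i m)) (as i m) u * Num (x i (hs i m')) (as i m') v -
        Num (x i (hs i m)) (as i m) v * Num (x i (hs i m')) (as i m') u) =
        (fun i => Num (x i (hs i m)) (as i m) u) * (fun i => Num (x i (hs i m')) (as i m') v) -
          (fun i => Num (x i (hs i m)) (as i m) v) *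
            (fun i => Num (x i (hs i m')) (as i m') u) := rfl
    rw [h3, map_sub, map_mul, map_mul]
    exact sub_eq_zero.2 h2
  have hoffA : ∀ m, MvPolynomial.eval₂ (θ.comp (RingHom.pi τ)) (Num (xs (a m)) (al m)) G ≠ 0 := by
    intro m h2
    rw [hevS, hk] at h2
    obtain ⟨i, hi⟩ := h2.exists
    apply hoff i m
    rw [MvPolynomial.eval_map]
    exact hi
  -- the closure of the field of complex numbers
  let ι : ℂ →+* AlgebraicClosure ℂ := algebraMap ℂ (AlgebraicClosure ℂ)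
  have hι : Function.Injective ι := ι.injective
  have hιs : Function.Surjective ι :=
    (IsAlgClosed.algebraMap_bijective_of_isIntegral (k := ℂ) (K := AlgebraicClosure ℂ)).2
  have hnumB : ∀ h α u, Num (bar (xs h)) (ι α) u = ι (Num (xs h) α u) := fun h α u =>
    num_map ι (xs h) α u
  have hpolB : ∀ h α, (Pol (bar (xs h))).eval (ι α) = ι ((Pol (xs h)).eval α) := fun h α =>
    eval_pol_map ι (xs h) α
  have hevB : ∀ h α (F : MvPolynomial (Fin (n + 1)) A),
      MvPolynomial.aeval (Num (bar (xs h)) (ι α)) (MvPolynomial.map (algebraMap A K) F) =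
        ι (MvPolynomial.eval₂ (θ.comp (RingHom.pi τ)) (Num (xs h) α) F) := by
    intro h α F
    have h2 : (algebraMap K (AlgebraicClosure ℂ)).comp (algebraMap A K) =
        ι.comp (θ.comp (RingHom.pi τ)) := by
      rw [← hco, ← RingHom.comp_assoc]
      rfl
    rw [MvPolynomial.aeval_def, MvPolynomial.eval₂_map, h2]
    have h3 := MvPolynomial.eval₂_comp_left ι (θ.comp (RingHom.pi τ)) (Num (xs h) α) F
    refine Eq.trans ?_ h3.symm
    congr 1
    funext u
    exact hnumB h α u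
  have h5 := hB ℂ (RingHom.id ℂ) (∀ i, Hs i) xs hxs (by
    rintro h α hα _ ⟨F, hFF, rfl⟩
    obtain ⟨α0, rfl⟩ := hιs α
    rw [hpolB] at hα
    have hα0 := hι (hα.trans (map_zero ι).symm)
    obtain ⟨b, rfl, hb⟩ := root_lift (fun i => x i (h i)) hα0
    rw [hevB, hevS]
    have h6 : (fun i => MvPolynomial.eval₂ (τ i) (Num (x i (h i)) (b i)) F) = 0 :=
      funext fun i => hF i (h i) (b i) (hb i) F hFF
    rw [h6, map_zero, map_zero])
  refine card_false (fun m : Fin (B + 1) => Num (bar (xs (a m))) (ι (al m)))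
    (fun m h6 => hxne m ?_) (fun i j hij => ?_) (fun m => ?_) h5
  · funext u
    have h7 := congrFun h6 u
    rw [hnumB] at h7
    exact hι (h7.trans (map_zero ι).symm)
  · obtain ⟨u, v, huv⟩ := hcross i j (by omega) (by omega) fun h => hij (Fin.ext h)
    refine ⟨u, v, fun h6 => huv ?_⟩
    rw [hnumB, hnumB, hnumB, hnumB, ← map_mul, ← map_mul] at h6
    exact hι h6
  · refine ⟨a m, ι (al m), _, ?_, ?_, rfl⟩
    · rw [hpolB, hrootA, map_zero]
    · rw [hevB]
      intro h6
      exact hoffA m (hι (h6.trans (map_zero ι).symm))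

end Pool.Agent.Q1.BD
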