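import Pool.Agent.Q1.BE.FamT

/-!
Families of varieties: fibres over arbitrary fields of characteristic zero.
-/

set_option autoImplicit false

namespace Pool.Agent.Q1.BD

open Filter Polynomial Pool.Agent.Q1.SL Pool.Agent.Y377.IL Pool.Agent.Y377.IR
  Pool.Agent.Y377.ST IntermediateField Cardinal

/-- a point of the fibre off `G = 0` over an arbitrary field -/
theorem point_all {A : Type} [CommRing A] [Countable A] {N : ℕ}
    {FF : Set (MvPolynomial (Fin N) A)} {G : MvPolynomial (Fin N) A} {h0 : A}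
    (hpt : ∀ τ : A →+* ℂ, τ h0 ≠ 0 → ∃ P : Fin N → ℂ,
      (∀ F ∈ FF, MvPolynomial.eval₂ τ P F = 0) ∧ MvPolynomial.eval₂ τ P G ≠ 0)
    {L : Type} [Field L] [CharZero L] (τ : A →+* L) (hτ : τ h0 ≠ 0) :
    ∃ P : Fin N → AlgebraicClosure L,
      (∀ F ∈ FF, MvPolynomial.aeval P (MvPolynomial.map τ F) = 0) ∧
        MvPolynomial.aeval P (MvPolynomial.map τ G) ≠ 0 := by
  classical
  let k1 : IntermediateField ℚ L := IntermediateField.adjoin ℚ (Set.range τ)
  have hk1 : #k1 ≤ ℵ₀ := by
    refine (IntermediateField.cardinalMk_adjoin_le ℚ (Set.range τ)).trans ?_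
    exact max_le (max_le Cardinal.mk_le_aleph0 (Set.countable_range τ).le_aleph0) le_rfl
  have hk1c : Countable k1 := Cardinal.mk_le_aleph0_iff.1 hk1
  have hC : Set.range τ ⊆ k1 := IntermediateField.subset_adjoin ℚ _
  let j : A →+* k1 := RingHom.codRestrict τ k1 fun c => hC ⟨c, rfl⟩
  have hj : (algebraMap k1 L).comp j = τ := RingHom.ext fun c => rfl
  have hcz : CharZero k1 := inferInstance
  obtain ⟨σ⟩ := exists_embed k1
  obtain ⟨P, hP, hPG⟩ := hpt (σ.comp j) (by
    intro h1
    apply hτ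
    have h2 : j h0 = 0 := (map_eq_zero σ).1 h1
    rw [← hj, RingHom.comp_apply, h2, map_zero])
  let iA : Algebra k1 ℂ := σ.toAlgebra
  have hev : ∀ F : MvPolynomial (Fin N) A, MvPolynomial.aeval P (MvPolynomial.map j F) =
      MvPolynomial.eval₂ (σ.comp j) P F := by
    intro F
    rw [MvPolynomial.aeval_def, MvPolynomial.eval₂_map]
    rfl
  let I : Ideal (MvPolynomial (Fin N) k1) := Ideal.span (MvPolynomial.map j '' FF)
  have hPI : P ∈ MvPolynomial.zeroLocus ℂ I := by
    intro p hp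
    have h1 : I ≤ RingHom.ker (MvPolynomial.aeval P : MvPolynomial (Fin N) k1 →ₐ[k1] ℂ) := by
      rw [Ideal.span_le]
      rintro _ ⟨F, hF, rfl⟩
      change MvPolynomial.aeval P (MvPolynomial.map j F) = 0
      rw [hev]
      exact hP F hF
    exact h1 hp
  have hrad : MvPolynomial.map j G ∉ I.radical := by
    intro h1
    rw [← MvPolynomial.vanishingIdeal_zeroLocus_eq_radical (K := ℂ)] at h1
    apply hPG
    rw [← hev]
    exact h1 P hPI
  obtain ⟨x, hx, hxG⟩ : ∃ x ∈ MvPolynomial.zeroLocus (AlgebraicClosure L) I,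
      MvPolynomial.aeval x (MvPolynomial.map j G) ≠ 0 := by
    by_contra h2
    push Not at h2
    apply hrad
    rw [← MvPolynomial.vanishingIdeal_zeroLocus_eq_radical (K := AlgebraicClosure L)]
    exact h2
  have hev2 : ∀ F : MvPolynomial (Fin N) A, MvPolynomial.aeval x (MvPolynomial.map τ F) =
      MvPolynomial.aeval x (MvPolynomial.map j F) := by
    intro F
    rw [← hj, ← MvPolynomial.map_map, MvPolynomial.aeval_map_algebraMap]
  refine ⟨x, fun F hF => ?_, ?_⟩
  · rw [hev2]
    exact hx _ (Ideal.subset_span ⟨F, hF, rfl⟩)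
  · rw [hev2]
    exact hxG

/-- from the complex numbers to the fields embeddable in them -/
theorem fam_emb {A : Type} [CommRing A] {n d s r e : ℕ} {FF : Set (MvPolynomial (Fin (n + 1)) A)}
    {G : MvPolynomial (Fin (n + 1)) A} {B : ℕ} {h0 : A}
    (hC : ∀ τ : A →+* ℂ, τ h0 ≠ 0 → ∀ (H : Type) [Group H] (x : H → Jx n d → ℂ),
      IterFam s r e x →
      (∀ h α, (Pol (x h)).eval α = 0 → ∀ F ∈ FF, MvPolynomial.eval₂ τ (Num (x h) α) F = 0) →
      (rootPtsC (MvPolynomial.map τ G) x).encard ≤ (B : ℕ∞))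
    {L : Type} [Field L] (ρ : L →+* ℂ) (τ : A →+* L) (hτ : τ h0 ≠ 0) {H : Type} [Group H]
    {x : H → Jx n d → L} (hx : IterFam s r e x)
    (hF : ∀ h α, (Pol (bar (x h))).eval α = 0 → ∀ F ∈ FF,
      MvPolynomial.aeval (Num (bar (x h)) α) (MvPolynomial.map τ F) = 0) :
    (rootPts (MvPolynomial.map τ G) x).encard ≤ (B : ℕ∞) := by
  by_contra hcon
  obtain ⟨σ, H', iH', z, hz, hzF, hs, as, h1, h2, h3, h4⟩ :=
    exists_seqR (FF := MvPolynomial.map τ '' FF) ρ hx (by
      rintro h α hα _ ⟨F, hFF, rfl⟩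
      exact hF h α hα F hFF) hcon
  have h5 := hC (σ.comp τ) (by
    intro h6
    exact hτ ((map_eq_zero σ).1 h6)) H' (fun h q => z h (Fintype.equivFin _ q))
    (iterFam_of_vec hz) (by
    intro h α hα F hFF
    have h6 := hzF h α hα _ ⟨F, hFF, rfl⟩
    rwa [MvPolynomial.eval₂_map] at h6)
  refine card_false (fun i : Fin (B + 1) =>
    Num (fun q => z (hs i) (Fintype.equivFin _ q)) (as i)) (fun i => h2 i) (fun i j hij => ?_)
    (fun i => ?_) h5
  · exact h4 i j (by omega) (by omega) fun h => hij (Fin.ext h)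
  · refine ⟨hs i, as i, h2 i, h1 i, ?_, rfl⟩
    have h6 := h3 i
    rw [MvPolynomial.eval₂_map] at h6
    rwa [MvPolynomial.eval_map]

/-- arbitrary fields of characteristic zero -/
theorem fam_all {A : Type} [CommRing A] [Countable A] {n d s r e : ℕ}
    {FF : Set (MvPolynomial (Fin (n + 1)) A)} {G : MvPolynomial (Fin (n + 1)) A} {B : ℕ} {h0 : A}
    (hC : ∀ τ : A →+* ℂ, τ h0 ≠ 0 → ∀ (H : Type) [Group H] (x : H → Jx n d → ℂ),
      IterFam s r e x →
      (∀ h α, (Pol (x h)).eval α = 0 → ∀ F ∈ FF, MvPolynomial.eval₂ τ (Num (x h) α) F = 0) →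
      (rootPtsC (MvPolynomial.map τ G) x).encard ≤ (B : ℕ∞))
    {L : Type} [Field L] [CharZero L] (τ : A →+* L) (hτ : τ h0 ≠ 0) {H : Type} [Group H]
    {x : H → Jx n d → L} (hx : IterFam s r e x)
    (hF : ∀ h α, (Pol (bar (x h))).eval α = 0 → ∀ F ∈ FF,
      MvPolynomial.aeval (Num (bar (x h)) α) (MvPolynomial.map τ F) = 0) :
    (rootPts (MvPolynomial.map τ G) x).encard ≤ (B : ℕ∞) := by
  classical
  by_contra hcon
  obtain ⟨hs, as, hroot, hn0, hoff, hcr⟩ := exists_finR hcon
  have hcK0 : CharZero (AlgebraicClosure L) :=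
    charZero_of_injective_algebraMap (algebraMap L (AlgebraicClosure L)).injective
  let τL : A →+* AlgebraicClosure L := (algebraMap L (AlgebraicClosure L)).comp τ
  let C1 : Set (AlgebraicClosure L) := Set.range τL ∪ Set.range as
  have hC1 : C1.Countable := Set.Countable.union (Set.countable_range _) (Set.countable_range _)
  let k1 : IntermediateField ℚ (AlgebraicClosure L) := IntermediateField.adjoin ℚ C1
  have hk1 : #k1 ≤ ℵ₀ := by
    refine (IntermediateField.cardinalMk_adjoin_le ℚ C1).trans ?_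
    exact max_le (max_le Cardinal.mk_le_aleph0 hC1.le_aleph0) le_rfl
  have hk1c : Countable k1 := Cardinal.mk_le_aleph0_iff.1 hk1
  have hC1k : C1 ⊆ k1 := IntermediateField.subset_adjoin ℚ C1
  let j : A →+* k1 := RingHom.codRestrict τL k1 fun c => hC1k (Or.inl ⟨c, rfl⟩)
  have hj : ∀ c, algebraMap k1 (AlgebraicClosure L) (j c) = τL c := fun c => rfl
  let N : Subgroup H := (FreeGroup.lift hs).range
  have hNc : Countable N := (MonoidHom.rangeRestrict_surjective (FreeGroup.lift hs)).countable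
  obtain ⟨L', iL, iA, hLc, ι, x', hx', hιx⟩ := Pool.Agent.Q1.SL.descend (k0 := k1)
    (iterVec_sub (hx.vec.map (algebraMap L (AlgebraicClosure L))) N)
  have hcL : CharZero L' := RingHom.charZero (ι : L' →+* AlgebraicClosure L)
  obtain ⟨ρ⟩ := exists_embed L'
  let τ' : A →+* L' := (algebraMap k1 L').comp j
  let iAK : Algebra L' (AlgebraicClosure L) := (ι : L' →+* AlgebraicClosure L).toAlgebra
  let a1 : AlgebraicClosure L' →ₐ[L'] AlgebraicClosure L := IsAlgClosed.lift
  have ha1 : ∀ c : L', a1 (algebraMap L' _ c) = ι c := fun c => a1.commutes c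
  have hιτ : ∀ c, ι (τ' c) = τL c := by
    intro c
    change ι (algebraMap k1 L' (j c)) = _
    rw [ι.commutes]
    exact hj c
  let x'' : N → Jx n d → L' := fun h q => x' h (Fintype.equivFin _ q)
  have hbar : ∀ (h : N), (fun q => (a1 : AlgebraicClosure L' →+* AlgebraicClosure L)
      (bar (x'' h) q)) = bar (x h) := by
    intro h
    funext q
    change a1 (algebraMap L' _ (x' h (Fintype.equivFin _ q))) = _
    rw [ha1, hιx]
    change algebraMap L (AlgebraicClosure L) (x h ((Fintype.equivFin _).symm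
      (Fintype.equivFin _ q))) = _
    rw [Equiv.symm_apply_apply]
    rfl
  have hnum : ∀ (h : N) α u, Num (bar (x h)) (a1 α) u = a1 (Num (bar (x'' h)) α u) := by
    intro h α u
    rw [← hbar h]
    exact num_map (a1 : AlgebraicClosure L' →+* AlgebraicClosure L) (bar (x'' h)) α u
  have hpol : ∀ (h : N) α, (Pol (bar (x h))).eval (a1 α) = a1 ((Pol (bar (x'' h))).eval α) := by
    intro h α
    rw [← hbar h]
    exact eval_pol_map (a1 : AlgebraicClosure L' →+* AlgebraicClosure L) (bar (x'' h)) α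
  have hcomp : (a1 : AlgebraicClosure L' →+* AlgebraicClosure L).comp
      ((algebraMap L' (AlgebraicClosure L')).comp τ') = τL := by
    refine RingHom.ext fun c => ?_
    change a1 (algebraMap L' (AlgebraicClosure L') (τ' c)) = _
    rw [ha1, hιτ]
  have hev : ∀ (h : N) α (F : MvPolynomial (Fin (n + 1)) A),
      MvPolynomial.aeval (Num (bar (x h)) (a1 α)) (MvPolynomial.map τ F) =
        a1 (MvPolynomial.aeval (Num (bar (x'' h)) α) (MvPolynomial.map τ' F)) := by
    intro h α F
    rw [MvPolynomial.aeval_def, MvPolynomial.aeval_def, MvPolynomial.eval₂_map,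
      MvPolynomial.eval₂_map]
    have h1 := MvPolynomial.eval₂_comp_left (a1 : AlgebraicClosure L' →+* AlgebraicClosure L)
      ((algebraMap L' (AlgebraicClosure L')).comp τ') (Num (bar (x'' h)) α) F
    rw [hcomp] at h1
    refine Eq.trans ?_ h1.symm
    congr 1
    funext u
    exact hnum h α u
  have h5 := fam_emb hC ρ τ' (by
    intro h6
    apply hτ
    have h7 := hιτ h0
    rw [h6, map_zero] at h7
    exact (map_eq_zero (algebraMap L (AlgebraicClosure L))).1 h7.symm) (H := N)
    (iterFam_of_vec hx') (by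
    intro h α hα F hFF
    have h1 : a1 (MvPolynomial.aeval (Num (bar (x'' h)) α) (MvPolynomial.map τ' F)) = 0 := by
      rw [← hev]
      refine hF h (a1 α) ?_ _ hFF
      rw [hpol]
      have h2 : (Pol (bar (x'' h))).eval α = 0 := hα
      rw [h2, map_zero]
    exact (map_eq_zero a1).1 h1)
  let hs' : Fin (B + 1) → N := fun i => ⟨hs i, FreeGroup.of i, FreeGroup.lift_apply_of⟩
  let as' : Fin (B + 1) → AlgebraicClosure L' := fun i =>
    algebraMap L' _ (algebraMap k1 L' ⟨as i, hC1k (Or.inr ⟨i, rfl⟩)⟩)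
  have has : ∀ i, a1 (as' i) = as i := by
    intro i
    change a1 (algebraMap L' _ _) = _
    rw [ha1, ι.commutes]
    rfl
  have hnum' : ∀ i u, Num (bar (x (hs i))) (as i) u = a1 (Num (bar (x'' (hs' i))) (as' i) u) := by
    intro i u
    rw [← has i]
    exact hnum (hs' i) (as' i) u
  refine card_false (fun i => Num (bar (x'' (hs' i))) (as' i)) (fun i h6 => hn0 i ?_)
    (fun i j hij => ?_) (fun i => ?_) h5
  · funext u
    rw [hnum', h6, Pi.zero_apply, map_zero]
    rfl
  · obtain ⟨u, v, huv⟩ := hcr i j hij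
    refine ⟨u, v, fun h6 => huv ?_⟩
    rw [hnum', hnum', hnum', hnum', ← map_mul, ← map_mul, h6]
  · refine ⟨hs' i, as' i, _, ?_, ?_, rfl⟩
    · have h6 := hpol (hs' i) (as' i)
      rw [has i] at h6
      exact (map_eq_zero a1).1 (h6.symm.trans (hroot i))
    · intro h6
      apply hoff i
      have h7 := hev (hs' i) (as' i) G
      rw [has i, h6, map_zero] at h7
      exact h7

/-- a form over the base -/
theorem clear_den {A : Type} [CommRing A] [IsDomain A] {K : Type} [Field K] [Algebra A K]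
    [IsFractionRing A K] {N : ℕ} (G0 : MvPolynomial (Fin N) K) :
    ∃ (G : MvPolynomial (Fin N) A) (b : K), b ≠ 0 ∧
      MvPolynomial.map (algebraMap A K) G = MvPolynomial.C b * G0 := by
  classical
  obtain ⟨c, hc⟩ := IsLocalization.exist_integer_multiples_of_finset (nonZeroDivisors A)
    (G0.support.image fun m => MvPolynomial.coeff m G0)
  have hc' : ∀ m, ∃ a : A, algebraMap A K a = (c : A) • MvPolynomial.coeff m G0 := by
    intro m
    by_cases hm : m ∈ G0.support
    · exact hc _ (Finset.mem_image_of_mem _ hm)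
    · refine ⟨0, ?_⟩
      rw [MvPolynomial.notMem_support_iff.1 hm, smul_zero, map_zero]
  choose a ha using hc'
  refine ⟨∑ m ∈ G0.support, MvPolynomial.monomial m (a m), algebraMap A K c, ?_, ?_⟩
  · intro h1
    exact nonZeroDivisors.ne_zero c.2 ((IsFractionRing.injective A K) (h1.trans (map_zero _).symm))
  · rw [map_sum]
    conv_rhs => rw [G0.as_sum, Finset.mul_sum]
    refine Finset.sum_congr rfl fun m _ => ?_
    rw [MvPolynomial.map_monomial, ha, MvPolynomial.C_mul_monomial, Algebra.smul_def]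

/-- **Families of varieties.** -/
theorem fam_strong {A : Type} [CommRing A] [IsDomain A] [Countable A] {K : Type} [Field K]
    [Algebra A K] [IsFractionRing A K] {n : ℕ} (FF : Set (MvPolynomial (Fin (n + 1)) A))
    (hfin : FF.Finite) (hhom : ∀ F ∈ FF, ∃ e, F.IsHomogeneous e)
    (hprime : (Ideal.span (MvPolynomial.map (algebraMap A K) '' FF)).IsPrime)
    (hne : ∃ v, (MvPolynomial.X v : MvPolynomial (Fin (n + 1)) K) ∉
      Ideal.span (MvPolynomial.map (algebraMap A K) '' FF)) (d : ℕ)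
    (hnu : ¬ Covered (Ideal.span (MvPolynomial.map (algebraMap A K) '' FF)) d) (s r e : ℕ) :
    ∃ (G : MvPolynomial (Fin (n + 1)) A) (h : A) (B : ℕ), (∃ e, G.IsHomogeneous e) ∧ h ≠ 0 ∧
      ∀ (L : Type) [Field L] [CharZero L] (τ : A →+* L), τ h ≠ 0 →
        (∃ P : Fin (n + 1) → AlgebraicClosure L, P ≠ 0 ∧
          (∀ F ∈ FF, MvPolynomial.aeval P (MvPolynomial.map τ F) = 0) ∧
          MvPolynomial.aeval P (MvPolynomial.map τ G) ≠ 0) ∧
        ∀ (H : Type) [Group H] (x : H → Jx n d → L), IterFam s r e x →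
          (∀ g α, (Pol (bar (x g))).eval α = 0 → ∀ F ∈ FF,
            MvPolynomial.aeval (Num (bar (x g)) α) (MvPolynomial.map τ F) = 0) →
          (rootPts (MvPolynomial.map τ G) x).encard ≤ (B : ℕ∞) := by
  classical
  have hinj : Function.Injective (algebraMap A K) := IsFractionRing.injective A K
  have hKc : Countable K := by
    have h1 : Function.Surjective fun p : A × nonZeroDivisors A => IsLocalization.mk' K p.1 p.2 :=
      fun z => by
        obtain ⟨a, b, h⟩ := IsLocalization.exists_mk'_eq (nonZeroDivisors A) z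
        exact ⟨(a, b), h⟩
    exact h1.countable
  obtain ⟨G0, ⟨e0, hG0⟩, hG0m, B, hB⟩ := strong_bd (MvPolynomial.map (algebraMap A K) '' FF) (by
    rintro _ ⟨F, hF, rfl⟩
    obtain ⟨e', he'⟩ := hhom F hF
    exact ⟨e', he'.map _⟩) hprime d hnu s r e
  obtain ⟨G, b, hb, hGb⟩ := clear_den (A := A) G0
  have hGh : G.IsHomogeneous e0 := by
    apply homog_of_map hinj
    rw [hGb]
    have h1 := (MvPolynomial.isHomogeneous_C (Fin (n + 1)) b).mul hG0
    rwa [zero_add] at h1
  have hGm : MvPolynomial.map (algebraMap A K) G ∉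
      Ideal.span (MvPolynomial.map (algebraMap A K) '' FF) := by
    rw [hGb]
    intro h1
    rcases hprime.mem_or_mem h1 with h2 | h2
    · apply hprime.ne_top
      refine Ideal.eq_top_of_isUnit_mem _ h2 ?_
      exact (isUnit_iff_ne_zero.2 hb).map MvPolynomial.C
    · exact hG0m h2
  obtain ⟨h1, hh1, hC⟩ := fam_C (K := K) (d := d) (s := s) (r := r) (e := e) FF G (B := B) (by
    intro L _ _ ρ H _ x hx hF
    refine le_trans (Set.encard_le_encard ?_) (hB L ρ H x hx hF)
    rintro P ⟨h, α, h0, h2, h3, h4⟩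
    refine ⟨h, α, h0, h2, fun h5 => h3 ?_, h4⟩
    rw [hGb, map_mul, h5, mul_zero])
  obtain ⟨v, hv⟩ := hne
  obtain ⟨h2, hh2, hpt⟩ := fam_point (K := K) hfin (G * MvPolynomial.X v) hprime (by
    rw [map_mul, MvPolynomial.map_X]
    intro h3
    rcases hprime.mem_or_mem h3 with h4 | h4
    · exact hGm h4
    · exact hv h4)
  refine ⟨G, h1 * h2, B, ⟨e0, hGh⟩, mul_ne_zero hh1 hh2, fun L _ _ τ hτ => ⟨?_, ?_⟩⟩
  · rw [map_mul] at hτ
    obtain ⟨P, hP, hPG⟩ := point_all hpt τ (right_ne_zero_of_mul hτ)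
    rw [map_mul, map_mul, MvPolynomial.map_X, MvPolynomial.aeval_X] at hPG
    refine ⟨P, fun h3 => ?_, hP, left_ne_zero_of_mul hPG⟩
    apply right_ne_zero_of_mul hPG
    rw [h3]
    rfl
  · intro H _ x hx hF
    rw [map_mul] at hτ
    exact fam_all hC τ (left_ne_zero_of_mul hτ) hx hF

end Pool.Agent.Q1.BD
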