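import Pool.Agent.Q1.BD.UniB

/-!
Curves of bounded gonality over different fields.
-/

set_option autoImplicit false

namespace Pool.Agent.Q1.BD

open Filter Polynomial Pool.Agent.Q1.SL Pool.Agent.Y377.IL Pool.Agent.Y377.IR
  Pool.Agent.Y377.ST IntermediateField

/-- no curves of gonality at most `d` and degree at most `δ` outside of `G = 0`, given by
identities -/
def GonFree {k : Type} [Field k] {n : ℕ} (S : Set (MvPolynomial (Fin (n + 1)) k))
    (G : MvPolynomial (Fin (n + 1)) k) (d δ : ℕ) : Prop :=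
  ∀ d' ≤ d, 0 < d' → ∀ p : Jx n d' → k[X], (∀ q, (p q).natDegree ≤ δ) →
    (∀ F ∈ S, Pol p ∣ MvPolynomial.aeval (NumP p) F) → ∀ u v, ¬ GonId p G u v

theorem GonIn.free {k : Type} [Field k] {n : ℕ} {S : Set (MvPolynomial (Fin (n + 1)) k)}
    {G : MvPolynomial (Fin (n + 1)) k} {d δ : ℕ} (h : GonIn S G d δ) : GonFree S G d δ :=
  fun _ hd hd0 _ hp hS _ _ hG => h.false hd hd0 hp hS hG

theorem GonFree.anti {k : Type} [Field k] {n : ℕ} {S S' : Set (MvPolynomial (Fin (n + 1)) k)}
    {G : MvPolynomial (Fin (n + 1)) k} {d δ : ℕ} (h : GonFree S G d δ)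
    (hS : ∀ (A : Type) [CommRing A] [Algebra k A] (y : Fin (n + 1) → A),
      (∀ F ∈ S', MvPolynomial.aeval y F = 0) → ∀ F ∈ S, MvPolynomial.aeval y F = 0) :
    GonFree S' G d δ := by
  intro d' hd hd0 p hp hS' u v
  refine h d' hd hd0 p hp (fun F hF => ?_) u v
  have h1 : ∀ F : MvPolynomial (Fin (n + 1)) k,
      MvPolynomial.aeval (fun j => Ideal.Quotient.mk (Ideal.span {Pol p}) (NumP p j)) F =
        Ideal.Quotient.mk (Ideal.span {Pol p}) (MvPolynomial.aeval (NumP p) F) := by
    intro F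
    exact (MvPolynomial.comp_aeval_apply (f := NumP p)
      (Ideal.Quotient.mkₐ k (Ideal.span {Pol p})) F).symm
  have h2 := hS (k[X][X] ⧸ Ideal.span {Pol p})
    (fun j => Ideal.Quotient.mk (Ideal.span {Pol p}) (NumP p j)) (fun F hF => by
      rw [h1, Ideal.Quotient.eq_zero_iff_mem, Ideal.mem_span_singleton]
      exact hS' F hF) F hF
  rw [h1, Ideal.Quotient.eq_zero_iff_mem, Ideal.mem_span_singleton] at h2
  exact h2

theorem GonId.map {k M : Type} [Field k] [Field M] (φ : k →+* M) {n d : ℕ} {p : Jx n d → k[X]}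
    {G : MvPolynomial (Fin (n + 1)) k} {u v : Fin (n + 1)} (h : GonId p G u v) :
    GonId (fun q => (p q).map φ) (MvPolynomial.map φ G) u v := by
  obtain ⟨⟨U, V, r, hr, hid⟩, N, m, s, a, hs, has, hW⟩ := h
  refine ⟨⟨U.map (mapRingHom φ), V.map (mapRingHom φ), r.map φ, ?_, ?_⟩, N, m,
    fun i => (s i).map φ, fun i => (a i).map φ, fun i => ?_, ?_, ?_⟩
  · exact (Polynomial.map_ne_zero_iff φ.injective).2 hr
  · have h1 := congrArg (fun x => x.map (mapRingHom φ)) hid
    simp only [Polynomial.map_add, Polynomial.map_mul, Polynomial.map_C] at h1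
    rw [fp_mapS, map_mul, MvPolynomial.map_X] at h1
    have h2 : (Pol p).map (mapRingHom φ) = Pol fun q => (p q).map φ := pol_map (mapRingHom φ) p
    rw [h2] at h1
    exact h1
  · rw [natDegree_map_eq_of_injective φ.injective]
    exact hs i
  · have h1 := congrArg (fun x => x.map φ) has
    simp only [Polynomial.map_sum, Polynomial.map_mul, Polynomial.map_one] at h1
    exact h1
  · rw [← ww_map]
    have h2 : (Pol p).map (mapRingHom φ) = Pol fun q => (p q).map φ := pol_map (mapRingHom φ) p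
    rw [← h2]
    exact Polynomial.map_dvd _ hW

/-- descent to subfields -/
theorem GonFree.down {k M : Type} [Field k] [Field M] (φ : k →+* M) {n : ℕ}
    {S : Set (MvPolynomial (Fin (n + 1)) k)} {G : MvPolynomial (Fin (n + 1)) k} {d δ : ℕ}
    (h : GonFree (MvPolynomial.map φ '' S) (MvPolynomial.map φ G) d δ) : GonFree S G d δ := by
  intro d' hd hd0 p hp hS u v hid
  refine h d' hd hd0 (fun q => (p q).map φ) (fun q => natDegree_map_le.trans (hp q)) ?_ u v
    (hid.map φ)
  rintro _ ⟨F, hF, rfl⟩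
  have h2 : (Pol p).map (mapRingHom φ) = Pol fun q => (p q).map φ := pol_map (mapRingHom φ) p
  rw [← fp_mapS, ← h2]
  exact Polynomial.map_dvd _ (hS F hF)

/-- specialisation of the identities -/
theorem spec_id {k M : Type} [Field k] [IsAlgClosed k] [Field M] [Algebra k M] {n d : ℕ}
    (p : Jx n d → M[X]) {G : MvPolynomial (Fin (n + 1)) k} {u v : Fin (n + 1)}
    (h : GonId p (MvPolynomial.map (algebraMap k M) G) u v) :
    ∃ p' : Jx n d → k[X], (∀ q, (p' q).natDegree ≤ (p q).natDegree) ∧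
      (∀ F : MvPolynomial (Fin (n + 1)) k,
        Pol p ∣ MvPolynomial.aeval (NumP p) (MvPolynomial.map (algebraMap k M) F) →
          Pol p' ∣ MvPolynomial.aeval (NumP p') F) ∧
      GonId p' G u v := by
  classical
  obtain ⟨⟨U, V, r, hr, hUV⟩, N, m, s, a, hm, has, hWW⟩ := h
  have hmapF : ∀ F : MvPolynomial (Fin (n + 1)) k,
      MvPolynomial.aeval (NumP p) (MvPolynomial.map (algebraMap k M) F) =
        MvPolynomial.aeval (NumP p) F := fun F => MvPolynomial.aeval_map_algebraMap M (NumP p) F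
  have hUV' : U * Pol p + V * MvPolynomial.aeval (NumP p) (G * MvPolynomial.X v) = C r := by
    rw [← hUV, ← hmapF, map_mul, MvPolynomial.map_X]
  obtain ⟨i0, hi0⟩ : ∃ i, r.coeff i ≠ 0 := by
    by_contra hcon
    push Not at hcon
    exact hr (Polynomial.ext fun i => by rw [hcon i, coeff_zero])
  -- the finitely generated ring
  obtain ⟨B, ψ, P, hT, hP⟩ := spec_polyF (k := k)
    (Sum.elim p (Sum.elim (fun i : Fin (U.natDegree + 1) => U.coeff (i : ℕ))
      (Sum.elim (fun i : Fin (V.natDegree + 1) => V.coeff (i : ℕ))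
        (Sum.elim (fun _ : Unit => r) (Sum.elim s a))))) {(r.coeff i0)⁻¹}
  let φ1 : B →+* M := (B.val : B →+* M)
  let φ2 : B →+* k := (ψ : B →+* k)
  have hφ1 : Function.Injective φ1 := Subtype.val_injective
  let f1 : B[X] →+* M[X] := mapRingHom φ1
  let f2 : B[X] →+* k[X] := mapRingHom φ2
  have hf1 : Function.Injective f1 := Polynomial.map_injective _ hφ1
  let pB : Jx n d → B[X] := fun q => P (Sum.inl q)
  let UB : B[X][X] := ∑ i : Fin (U.natDegree + 1), C (P (Sum.inr (Sum.inl i))) * X ^ (i : ℕ)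
  let VB : B[X][X] := ∑ i : Fin (V.natDegree + 1),
    C (P (Sum.inr (Sum.inr (Sum.inl i)))) * X ^ (i : ℕ)
  let rB : B[X] := P (Sum.inr (Sum.inr (Sum.inr (Sum.inl ()))))
  let sB : Fin (N + 1) → B[X] := fun i => P (Sum.inr (Sum.inr (Sum.inr (Sum.inr (Sum.inl i)))))
  let aB : Fin (N + 1) → B[X] := fun i => P (Sum.inr (Sum.inr (Sum.inr (Sum.inr (Sum.inr i)))))
  have hpB : ∀ q, f1 (pB q) = p q := fun q => hP (Sum.inl q)
  have hpB' : (fun q => f1 (pB q)) = p := funext hpB
  have hUB : UB.map f1 = U := by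
    rw [sumC_map]
    conv_rhs => rw [as_fin_sum U]
    exact Finset.sum_congr rfl fun i _ => congrArg (fun x => C x * X ^ (i : ℕ))
      (hP (Sum.inr (Sum.inl i)))
  have hVB : VB.map f1 = V := by
    rw [sumC_map]
    conv_rhs => rw [as_fin_sum V]
    exact Finset.sum_congr rfl fun i _ => congrArg (fun x => C x * X ^ (i : ℕ))
      (hP (Sum.inr (Sum.inr (Sum.inl i))))
  have hrB : f1 rB = r := hP (Sum.inr (Sum.inr (Sum.inr (Sum.inl ()))))
  have hsB : ∀ i, f1 (sB i) = s i := fun i => hP (Sum.inr (Sum.inr (Sum.inr (Sum.inr (Sum.inl i)))))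
  have haB : ∀ i, f1 (aB i) = a i := fun i => hP (Sum.inr (Sum.inr (Sum.inr (Sum.inr (Sum.inr i)))))
  have hdeg : ∀ (x : B[X]), (f2 x).natDegree ≤ (f1 x).natDegree := by
    intro x
    have h1 : (f1 x).natDegree = x.natDegree := natDegree_map_eq_of_injective hφ1 _
    rw [h1]
    exact natDegree_map_le
  have hpol1 : (Pol pB).map f1 = Pol p := by
    rw [pol_map, hpB']
  have hfp1 : ∀ F : MvPolynomial (Fin (n + 1)) k,
      (MvPolynomial.aeval (NumP pB) F).map f1 = MvPolynomial.aeval (NumP p) F := by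
    intro F
    have h1 := fp_map (Polynomial.mapAlgHom B.val) pB F
    have h2 : (fun q => (Polynomial.mapAlgHom B.val) (pB q)) = p := hpB'
    rw [h2] at h1
    exact h1
  let p' : Jx n d → k[X] := fun q => f2 (pB q)
  have hfp2 : ∀ F : MvPolynomial (Fin (n + 1)) k,
      (MvPolynomial.aeval (NumP pB) F).map f2 = MvPolynomial.aeval (NumP p') F := fun F =>
    fp_map (Polynomial.mapAlgHom ψ) pB F
  have hpol2 : (Pol pB).map f2 = Pol p' := pol_map f2 pB
  have hdvd : ∀ g : B[X][X], Pol p ∣ g.map f1 → Pol p' ∣ g.map f2 := by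
    intro g hg
    rw [← hpol1] at hg
    have h1 : Pol pB ∣ g := (map_dvd_map f1 hf1 (pol_monic pB)).1 hg
    have h2 := Polynomial.map_dvd f2 h1
    rwa [hpol2] at h2
  refine ⟨p', fun q => ?_, fun F hF => ?_, ?_⟩
  · have h1 := hdeg (pB q)
    rwa [hpB] at h1
  · have h1 : Pol p ∣ (MvPolynomial.aeval (NumP pB) F).map f1 := by
      rw [hfp1, ← hmapF]
      exact hF
    have h2 := hdvd _ h1
    rwa [hfp2] at h2
  · let s' : Fin (N + 1) → k[X] := fun i => f2 (sB i)
    have hs' : ∀ i, (s' i).natDegree ≤ m := fun i => (hdeg (sB i)).trans (by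
      rw [hsB]
      exact hm i)
    have hid : UB * Pol pB + VB * MvPolynomial.aeval (NumP pB) (G * MvPolynomial.X v) = C rB := by
      apply Polynomial.map_injective f1 hf1
      rw [Polynomial.map_add, Polynomial.map_mul, Polynomial.map_mul, hUB, hVB, hpol1, hfp1, hUV',
        Polynomial.map_C, hrB]
    refine ⟨⟨UB.map f2, VB.map f2, f2 rB, ?_, ?_⟩, N, m, s', fun i => f2 (aB i), hs', ?_, ?_⟩
    · have h1 : (r.coeff i0)⁻¹ ∈ B := hT _ (Finset.mem_singleton_self _)
      have h2 : r.coeff i0 = (rB.coeff i0 : M) := by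
        rw [← hrB]
        exact coeff_map φ1 i0
      intro h3
      have h4 : ψ (rB.coeff i0) = 0 := by
        have h5 := congrArg (fun x => x.coeff i0) h3
        have h6 : (f2 rB).coeff i0 = ψ (rB.coeff i0) := coeff_map φ2 i0
        rw [← h6]
        exact h5
      have h5 : rB.coeff i0 * ⟨_, h1⟩ = 1 := Subtype.ext (by
        change (rB.coeff i0 : M) * (r.coeff i0)⁻¹ = 1
        rw [← h2]
        exact mul_inv_cancel₀ hi0)
      have h6 := congrArg ψ h5
      rw [map_mul, h4, zero_mul, map_one] at h6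
      exact zero_ne_one h6
    · have h1 := congrArg (fun x => x.map f2) hid
      simp only [Polynomial.map_add, Polynomial.map_mul, hpol2, Polynomial.map_C] at h1
      rw [hfp2] at h1
      exact h1
    · have h7 : ∑ i, aB i * sB i = 1 := by
        apply hf1
        rw [map_sum, map_one, ← has]
        exact Finset.sum_congr rfl fun i _ => by rw [map_mul, haB, hsB]
      have h8 := congrArg f2 h7
      rw [map_sum, map_one] at h8
      rw [← h8]
      exact Finset.sum_congr rfl fun i _ => by rw [map_mul]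
    · have hWB1 : (WW m pB sB u v).map f1 = WW m p s u v := by
        have h1 := ww_map φ1 m pB sB u v
        refine h1.trans ?_
        have h2 : (fun q => (pB q).map φ1) = p := hpB'
        have h3 : (fun i => (sB i).map φ1) = s := funext hsB
        rw [h2, h3]
      have hWB2 : (WW m pB sB u v).map f2 = WW m p' s' u v := ww_map φ2 m pB sB u v
      rw [← hWB2]
      apply hdvd
      rw [hWB1]
      exact hWW

/-- extension of algebraically closed fields -/
theorem GonFree.up {k M : Type} [Field k] [IsAlgClosed k] [Field M] (φ : k →+* M) {n : ℕ}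
    {S : Set (MvPolynomial (Fin (n + 1)) k)} {G : MvPolynomial (Fin (n + 1)) k} {d δ : ℕ}
    (h : GonFree S G d δ) : GonFree (MvPolynomial.map φ '' S) (MvPolynomial.map φ G) d δ := by
  intro d' hd hd0 p hp hS u v hid
  let _ : Algebra k M := φ.toAlgebra
  obtain ⟨p', h1, h2, h3⟩ := spec_id (k := k) p hid
  exact h d' hd hd0 p' (fun q => (h1 q).trans (hp q)) (fun F hF => h2 F (hS _ ⟨F, hF, rfl⟩)) u v h3

end Pool.Agent.Q1.BD
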