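import Pool.Agent.Q1.BE.AllF
import Pool.Agent.Q1.BD.Tfae

/-!
Polynomial families of points of bounded degree over an algebraically closed field: finiteness
persists over all larger fields.
-/

set_option autoImplicit false

namespace Pool.Agent.Q1.BD

open Filter Polynomial Pool.Agent.Q1.SL Pool.Agent.Y377.ST

/-- The points outside of `G = 0` of the polynomial family `p` at the integers. -/
def polyPts {k : Type} [Field k] {n d : ℕ} (G : MvPolynomial (Fin (n + 1)) k) (p : Jx n d → k[X]) :
    Set (Projectivization k (Fin (n + 1) → k)) :=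
  {P | ∃ (m : ℤ) (α : k) (h0 : Num (fun q => (p q).eval (m : k)) α ≠ 0),
    (Pol fun q => (p q).eval (m : k)).eval α = 0 ∧
    MvPolynomial.eval (Num (fun q => (p q).eval (m : k)) α) G ≠ 0 ∧
    P = Projectivization.mk k (Num (fun q => (p q).eval (m : k)) α) h0}

/-- Each polynomial family of points of degree at most `d` of the variety of `S` has, at the
integers, only finitely many points outside of `G = 0`. -/
def PolyFinite {k : Type} [Field k] {n : ℕ} (S : Set (MvPolynomial (Fin (n + 1)) k))
    (G : MvPolynomial (Fin (n + 1)) k) (d : ℕ) : Prop :=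
  ∀ p : Jx n d → k[X],
    (∀ (m : ℤ) (α : k), (Pol fun q => (p q).eval (m : k)).eval α = 0 → ∀ F ∈ S,
      MvPolynomial.eval (Num (fun q => (p q).eval (m : k)) α) F = 0) →
    (polyPts G p).Finite

section persist

variable {k : Type} [Field k] [CharZero k] [IsAlgClosed k]

theorem clo_polK {n d : ℕ} (p : Jx n d → k[X]) : (Pol p).map
    (algebraMap k[X] (AlgebraicClosure (RatFunc k))) = Pol (clo p) := pol_map _ _

/-- vanishing at the roots over the closure of the field of rational functions, from vanishing at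
the roots over the points of the line -/
theorem vanish_upK {n d : ℕ} (p : Jx n d → k[X]) (f : k[X][X])
    (h : ∀ (m : ℤ) (α : k), (Pol fun q => (p q).eval (m : k)).eval α = 0 →
      (f.map (evalRingHom (m : k))).eval α = 0)
    {β : AlgebraicClosure (RatFunc k)} (hβ : (Pol (clo p)).eval β = 0) : aeval β f = 0 := by
  classical
  have hm : (Pol p).Monic := pol_monic p
  have hr : (f ^ d) %ₘ Pol p = 0 := by
    apply Polynomial.ext
    intro i
    rw [coeff_zero]
    have h1 : ∀ m : ℤ, (((f ^ d) %ₘ Pol p).coeff i).eval (m : k) = 0 := by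
      intro m
      have h2 := dvd_pow_of_roots (fun q => (p q).eval (m : k)) (f.map (evalRingHom (m : k)))
        (h m)
      have h3 : (Pol p).map (evalRingHom (m : k)) = Pol fun q => (p q).eval (m : k) :=
        pol_map _ _
      rw [← h3, ← Polynomial.map_pow, ← modByMonic_eq_zero_iff_dvd (hm.map _),
        ← Polynomial.map_modByMonic _ hm] at h2
      have h4 := congrArg (fun q => q.coeff i) h2
      simp only [coeff_map, coeff_zero] at h4
      exact h4
    by_contra hne
    have hfin := (((f ^ d) %ₘ Pol p).coeff i).roots.toFinset.finite_toSet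
    have hinf : (Set.range fun m : ℤ => (m : k)).Infinite :=
      Set.infinite_range_of_injective Int.cast_injective
    apply hinf
    refine hfin.subset ?_
    rintro _ ⟨m, rfl⟩
    rw [Finset.mem_coe, Multiset.mem_toFinset, mem_roots hne]
    exact h1 m
  have h1 : Pol p ∣ f ^ d := (modByMonic_eq_zero_iff_dvd hm).1 hr
  obtain ⟨q, hq⟩ := h1
  have h2 : aeval β (Pol p) = 0 := by
    rw [aeval_def, ← eval_map, clo_polK]
    exact hβ
  have h3 : (aeval β f) ^ d = 0 := by
    rw [← map_pow, hq, map_mul, h2, zero_mul]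
  by_contra hne
  exact pow_ne_zero d hne h3

/-- vanishing over the points of the line, from vanishing over the field of rational functions -/
theorem vanish_downK {n d : ℕ} (p : Jx n d → k[X]) (f : k[X][X])
    (h : ∀ β : AlgebraicClosure (RatFunc k), (Pol (clo p)).eval β = 0 → aeval β f = 0)
    (m α : k) (hα : (Pol fun q => (p q).eval m).eval α = 0) :
    (f.map (evalRingHom m)).eval α = 0 := by
  classical
  have hm : (Pol p).Monic := pol_monic p
  have h1 : Pol (clo p) ∣ (f.map (algebraMap k[X] (AlgebraicClosure (RatFunc k)))) ^ d :=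
    dvd_pow_of_roots (clo p) _ fun β hβ => by
      rw [eval_map, ← aeval_def]
      exact h β hβ
  rw [← clo_polK, ← Polynomial.map_pow, Polynomial.map_dvd_map _ clo_inj hm] at h1
  obtain ⟨q, hq⟩ := h1
  have h2 := congrArg (fun r => (r.map (evalRingHom m)).eval α) hq
  simp only [Polynomial.map_pow, Polynomial.map_mul, eval_pow, eval_mul, pol_map] at h2
  have h3 : (Pol fun q => (evalRingHom m) (p q)).eval α = 0 := hα
  rw [h3, zero_mul] at h2
  by_contra hne
  exact pow_ne_zero d hne h2

/-- the values of a form at the points of the line -/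
theorem ev_formK {n d : ℕ} (p : Jx n d → k[X]) (F : MvPolynomial (Fin (n + 1)) k) (m α : k) :
    ((MvPolynomial.aeval (NumP p) F).map (evalRingHom m)).eval α =
      MvPolynomial.eval (Num (fun q => (p q).eval m) α) F := by
  have h1 := fp_map (k := k) (aeval m : k[X] →ₐ[k] k) p F
  rw [coe_aeval_eq_evalRingHom] at h1
  rw [h1]
  have h2 := fp_aeval (k := k) (A := k) (B := k) (fun q => (p q).eval m) α F
  rw [coe_aeval_eq_eval] at h2
  refine Eq.trans ?_ (h2.trans ?_)
  · rfl
  · rw [← MvPolynomial.coe_aeval_eq_eval]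
    rfl

/-- the same point with a polynomial of degree `d` -/
theorem padK {n d : ℕ} {S : Set (MvPolynomial (Fin (n + 1)) k)}
    (hS : ∀ F ∈ S, ∃ e, F.IsHomogeneous e) {d' : ℕ} (hd' : d' ≤ d) (p : Jx n d' → k[X])
    (hroots : ∀ α, (Pol (clo p)).eval α = 0 → ∀ F ∈ S, MvPolynomial.aeval (Num (clo p) α) F = 0)
    {α0 : AlgebraicClosure (RatFunc k)} (hα0 : (Pol (clo p)).eval α0 = 0) :
    ∃ (p' : Jx n d → k[X]) (Z : AlgebraicClosure (RatFunc k)), Z ≠ 0 ∧
      (Pol (clo p')).eval α0 = 0 ∧
      (∀ F ∈ S, ∀ β, (Pol (clo p')).eval β = 0 → MvPolynomial.aeval (Num (clo p') β) F = 0) ∧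
      ∀ u, Num (clo p') α0 u = Z * Num (clo p) α0 u := by
  classical
  -- a constant
  obtain ⟨c, hc⟩ : ∃ c : k, (Pol (clo p)).eval
      (algebraMap k (AlgebraicClosure (RatFunc k)) c) ≠ 0 := by
    by_contra hcon
    push Not at hcon
    have h0 : Pol (clo p) ≠ 0 := (pol_monic _).ne_zero
    have hfin := (Pol (clo p)).roots.toFinset.finite_toSet
    have hinf : (Set.range fun c : k => algebraMap k (AlgebraicClosure (RatFunc k)) c).Infinite :=
      Set.infinite_range_of_injective (algebraMap k (AlgebraicClosure (RatFunc k))).injective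
    apply hinf
    refine hfin.subset ?_
    rintro _ ⟨c, rfl⟩
    rw [Finset.mem_coe, Multiset.mem_toFinset, mem_roots h0]
    exact hcon c
  set κ : AlgebraicClosure (RatFunc k) := algebraMap k (AlgebraicClosure (RatFunc k)) c with hκ
  let l : k[X][X] := X - C (C c)
  have hl : l.Monic := monic_X_sub_C _
  have hln : l.natDegree = 1 := natDegree_X_sub_C _
  let ε : ℕ := if d' < d then 1 else 0
  have hCC : ∀ a : k, algebraMap k[X] (AlgebraicClosure (RatFunc k)) (C a) =
      algebraMap k (AlgebraicClosure (RatFunc k)) a := fun a =>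
    (IsScalarTower.algebraMap_apply k k[X] (AlgebraicClosure (RatFunc k)) a).symm
  have hlβ : ∀ β : AlgebraicClosure (RatFunc k), aeval β l = β - κ := by
    intro β
    change aeval β (X - C (C c)) = _
    rw [map_sub, aeval_X, aeval_C, hCC]
  obtain ⟨p', hp'P, hp'N⟩ := exists_jx (d := d) (Pol p * l ^ (d - d'))
    ((pol_monic p).mul (hl.pow _)) (by
      rw [(pol_monic p).natDegree_mul (hl.pow _), hl.natDegree_pow, hln, pol_degree]
      omega) (fun j => l ^ ε * NumP p j) (fun j => by
      by_cases h0 : l ^ ε * NumP p j = 0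
      · rw [h0, degree_zero]
        exact WithBot.bot_lt_coe d
      · have h1 : NumP p j ≠ 0 := fun h1 => h0 (by rw [h1, mul_zero])
        have h2 : (NumP p j).natDegree < d' := by
          have h3 := numP_degree p j
          rw [degree_eq_natDegree h1] at h3
          exact_mod_cast h3
        rw [degree_eq_natDegree h0]
        have h3 : (l ^ ε * NumP p j).natDegree ≤ ε + (NumP p j).natDegree := by
          refine natDegree_mul_le.trans ?_
          rw [hl.natDegree_pow, hln, mul_one]
        have h4 : ε + (NumP p j).natDegree < d := by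
          by_cases h5 : d' < d
          · have h6 : ε = 1 := if_pos h5
            omega
          · have h6 : ε = 0 := if_neg h5
            omega
        exact_mod_cast h3.trans_lt h4)
  have hP'β : ∀ β : AlgebraicClosure (RatFunc k),
      (Pol (clo p')).eval β = (Pol (clo p)).eval β * (β - κ) ^ (d - d') := by
    intro β
    have h1 : aeval β (Pol p') = aeval β (Pol p) * (β - κ) ^ (d - d') := by
      rw [hp'P, map_mul, map_pow, hlβ]
    rwa [aeval_def, aeval_def, ← eval_map, ← eval_map, clo_polK, clo_polK] at h1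
  have hN'β : ∀ (β : AlgebraicClosure (RatFunc k)) j,
      Num (clo p') β j = (β - κ) ^ ε * Num (clo p) β j := by
    intro β j
    have h1 := numP_aeval (B := AlgebraicClosure (RatFunc k)) p' β j
    have h2 := numP_aeval (B := AlgebraicClosure (RatFunc k)) p β j
    rw [hp'N, map_mul, map_pow, hlβ, h2] at h1
    exact h1.symm
  refine ⟨p', (α0 - κ) ^ ε, ?_, ?_, ?_, fun u => hN'β α0 u⟩
  · refine pow_ne_zero _ fun h1 => hc ?_
    rw [← sub_eq_zero.1 h1]
    exact hα0
  · rw [hP'β, hα0, zero_mul]
  · intro F hF β hβ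
    obtain ⟨e, he⟩ := hS F hF
    have h1 : Num (clo p') β = fun j => (β - κ) ^ ε * Num (clo p) β j := funext (hN'β β)
    have hsc : MvPolynomial.aeval (Num (clo p') β) F =
        ((β - κ) ^ ε) ^ e * MvPolynomial.aeval (Num (clo p) β) F := by
      rw [h1]
      exact Pool.Agent.Y837.ST.aeval_scale _ _ he
    rw [hsc]
    rw [hP'β, mul_eq_zero] at hβ
    rcases hβ with hβ | hβ
    · rw [hroots β hβ F hF, mul_zero]
    · have hdd : d' < d := by
        by_contra h1
        have h2 : d - d' = 0 := by omega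
        rw [h2, pow_zero] at hβ
        exact one_ne_zero hβ
      have h1 : β - κ = 0 := by
        by_contra hne
        exact pow_ne_zero _ hne hβ
      have h2 : ε = 1 := if_pos hdd
      rw [h1, h2, pow_one]
      rcases Nat.eq_zero_or_pos e with rfl | he0
      · have hz : ∀ y : Fin (n + 1) → AlgebraicClosure (RatFunc k), MvPolynomial.aeval y F =
            MvPolynomial.aeval (fun _ : Fin (n + 1) => (0 : AlgebraicClosure (RatFunc k))) F := by
          intro y
          have h3 := Pool.Agent.Y837.ST.aeval_scale (0 : AlgebraicClosure (RatFunc k)) y he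
          rw [pow_zero, one_mul] at h3
          rw [← h3]
          simp only [zero_mul]
        rw [hz, ← hz (Num (clo p) α0), hroots α0 hα0 F hF, mul_zero]
      · rw [zero_pow he0.ne', zero_mul]


/-- **Polynomial families and curves.** -/
theorem gonIn_of_poly {n d : ℕ} {S : Set (MvPolynomial (Fin (n + 1)) k)}
    {G : MvPolynomial (Fin (n + 1)) k} (hS : ∀ F ∈ S, ∃ e, F.IsHomogeneous e)
    (hG : ∃ e, G.IsHomogeneous e)
    (h : ∀ p : Jx n d → k[X],
      (∀ (m : ℤ) (α : k), (Pol fun q => (p q).eval (m : k)).eval α = 0 → ∀ F ∈ S,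
        MvPolynomial.eval (Num (fun q => (p q).eval (m : k)) α) F = 0) →
      (polyPts G p).Finite) (δ : ℕ) : GonIn S G d δ := by
  classical
  intro d' hd' p hp hroots α0 hα0 ⟨u, v, hv, hnc⟩
  by_contra hGne
  obtain ⟨p', Z, hZ, hα0', hS', hnum⟩ := padK hS hd' p hroots hα0
  have hX : ∀ (m : ℤ) (α : k), (Pol fun q => (p' q).eval (m : k)).eval α = 0 → ∀ F ∈ S,
      MvPolynomial.eval (Num (fun q => (p' q).eval (m : k)) α) F = 0 := by
    intro m α hα F hF
    have h1 := vanish_downK p' (MvPolynomial.aeval (NumP p') F) (fun β hβ => by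
      rw [fp_aeval]
      exact hS' F hF β hβ) _ α hα
    rwa [ev_formK] at h1
  have hfin := h p' hX
  let R := hfin.toFinset
  -- the polynomials
  let fw : (Projectivization k (Fin (n + 1) → k) → Fin (n + 1) × Fin (n + 1)) → k[X][X] :=
    fun w => (∏ P ∈ R, (C (C (P.rep (w P).2)) * NumP p' (w P).1 -
      C (C (P.rep (w P).1)) * NumP p' (w P).2)) * MvPolynomial.aeval (NumP p') G * NumP p' v
  have hnumx : ∀ (m α : k) j, ((NumP p' j).map (evalRingHom m)).eval α =
      Num (fun q => (p' q).eval m) α j := by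
    intro m α j
    rw [numP_map, numP_eval]
    rfl
  have hfw : ∀ w, aeval α0 (fw w) = 0 := by
    intro w
    refine vanish_upK p' (fw w) (fun m α hα => ?_) hα0'
    change (Polynomial.map (evalRingHom (m : k)) ((∏ P ∈ R, (C (C (P.rep (w P).2)) *
      NumP p' (w P).1 - C (C (P.rep (w P).1)) * NumP p' (w P).2)) *
        MvPolynomial.aeval (NumP p') G * NumP p' v)).eval α = 0
    rw [Polynomial.map_mul, Polynomial.map_mul, eval_mul, eval_mul, ev_formK, hnumx,
      Polynomial.map_prod, eval_prod]
    by_cases h0 : Num (fun q => (p' q).eval (m : k)) α = 0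
    · rw [h0, Pi.zero_apply, mul_zero]
    by_cases h1 : MvPolynomial.eval (Num (fun q => (p' q).eval (m : k)) α) G = 0
    · rw [h1, mul_zero, zero_mul]
    have hmem : Projectivization.mk k (Num (fun q => (p' q).eval (m : k)) α) h0 ∈ R := by
      rw [Set.Finite.mem_toFinset]
      exact ⟨m, α, h0, hα, h1, rfl⟩
    obtain ⟨a, ha⟩ := Projectivization.exists_smul_eq_mk_rep k
      (Num (fun q => (p' q).eval (m : k)) α) h0
    have h2 : ∏ P ∈ R, (Polynomial.map (evalRingHom (m : k)) (C (C (P.rep (w P).2)) *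
        NumP p' (w P).1 - C (C (P.rep (w P).1)) * NumP p' (w P).2)).eval α = 0 := by
      refine Finset.prod_eq_zero hmem ?_
      rw [Polynomial.map_sub, Polynomial.map_mul, Polynomial.map_mul, eval_sub, eval_mul,
        eval_mul, hnumx, hnumx, map_C, map_C, eval_C, eval_C, coe_evalRingHom, eval_C, eval_C,
        ← ha]
      simp only [Pi.smul_apply, Units.smul_def, smul_eq_mul]
      ring
    rw [h2, zero_mul, zero_mul]
  -- the contradiction
  let N : Fin (n + 1) → AlgebraicClosure (RatFunc k) := Num (clo p') α0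
  have hCC : ∀ a : k, algebraMap k[X] (AlgebraicClosure (RatFunc k)) (C a) =
      algebraMap k (AlgebraicClosure (RatFunc k)) a := fun a =>
    (IsScalarTower.algebraMap_apply k k[X] (AlgebraicClosure (RatFunc k)) a).symm
  have hNv : N v ≠ 0 := by
    change Num (clo p') α0 v ≠ 0
    rw [hnum]
    exact mul_ne_zero hZ hv
  have hNG : MvPolynomial.aeval N G ≠ 0 := by
    obtain ⟨e, he⟩ := hG
    have h1 : N = fun j => Z * Num (clo p) α0 j := funext hnum
    have h2 : MvPolynomial.aeval N G = Z ^ e * MvPolynomial.aeval (Num (clo p) α0) G := by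
      rw [h1]
      exact Pool.Agent.Y837.ST.aeval_scale _ _ he
    rw [h2]
    exact mul_ne_zero (pow_ne_zero _ hZ) hGne
  let fac : Projectivization k (Fin (n + 1) → k) → Fin (n + 1) → Fin (n + 1) →
      AlgebraicClosure (RatFunc k) :=
    fun P i j => algebraMap k (AlgebraicClosure (RatFunc k)) (P.rep j) * N i -
      algebraMap k (AlgebraicClosure (RatFunc k)) (P.rep i) * N j
  let w : Projectivization k (Fin (n + 1) → k) → Fin (n + 1) × Fin (n + 1) := fun P =>
    if h : ∃ ij : Fin (n + 1) × Fin (n + 1), fac P ij.1 ij.2 ≠ 0 then h.choose else (v, v)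
  have hw : ∀ P, fac P (w P).1 (w P).2 = 0 → ∀ i j, fac P i j = 0 := by
    intro P h1 i j
    by_contra h2
    have h3 : ∃ ij : Fin (n + 1) × Fin (n + 1), fac P ij.1 ij.2 ≠ 0 := ⟨(i, j), h2⟩
    have h4 : w P = h3.choose := dif_pos h3
    rw [h4] at h1
    exact h3.choose_spec h1
  have h1 := hfw w
  have h2 : aeval α0 (fw w) = (∏ P ∈ R, fac P (w P).1 (w P).2) *
      MvPolynomial.aeval N G * N v := by
    change aeval α0 ((∏ P ∈ R, (C (C (P.rep (w P).2)) *
      NumP p' (w P).1 - C (C (P.rep (w P).1)) * NumP p' (w P).2)) *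
        MvPolynomial.aeval (NumP p') G * NumP p' v) = _
    rw [map_mul, map_mul, fp_aeval, numP_aeval, map_prod]
    congr 2
    refine Finset.prod_congr rfl fun P _ => ?_
    rw [map_sub, map_mul, map_mul, aeval_C, aeval_C, numP_aeval, numP_aeval, hCC, hCC]
    rfl
  rw [h2] at h1
  have h3 : ∏ P ∈ R, fac P (w P).1 (w P).2 = 0 := by
    rcases mul_eq_zero.1 h1 with h4 | h4
    · rcases mul_eq_zero.1 h4 with h5 | h5
      · exact h5
      · exact absurd h5 hNG
    · exact absurd h4 hNv
  obtain ⟨P, -, hP⟩ := Finset.prod_eq_zero_iff.1 h3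
  have hPall := hw P hP
  obtain ⟨i0, hi0⟩ := Function.ne_iff.1 P.rep_nonzero
  have hinj : Function.Injective (algebraMap k (AlgebraicClosure (RatFunc k))) :=
    (algebraMap k (AlgebraicClosure (RatFunc k))).injective
  have hPv : algebraMap k (AlgebraicClosure (RatFunc k)) (P.rep v) ≠ 0 := by
    intro h4
    have h5 := sub_eq_zero.1 (hPall v i0)
    rw [h4, zero_mul] at h5
    rcases mul_eq_zero.1 h5 with h6 | h6
    · exact hi0 (hinj (h6.trans (map_zero _).symm))
    · exact hNv h6
  have h4 := sub_eq_zero.1 (hPall u v)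
  refine hnc (P.rep u / P.rep v) ?_
  have h5 : N u = Z * Num (clo p) α0 u := hnum u
  have h6 : N v = Z * Num (clo p) α0 v := hnum v
  rw [h5, h6] at h4
  rw [map_div₀, div_mul_eq_mul_div, eq_div_iff hPv]
  apply mul_left_cancel₀ hZ
  linear_combination h4

end persist

/-- **Persistence of finiteness.** -/
theorem persist (n D d s r e : ℕ) : ∃ B : ℕ, ∀ (k : Type) [Field k] [CharZero k] [IsAlgClosed k]
    (S : Set (MvPolynomial (Fin (n + 1)) k)) (G : MvPolynomial (Fin (n + 1)) k),
    (∀ F ∈ S, ∃ e, e ≤ D ∧ F.IsHomogeneous e) → (∃ e, e ≤ D ∧ G.IsHomogeneous e) →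
    (∀ p : Jx n d → k[X],
      (∀ (m : ℤ) (α : k), (Pol fun q => (p q).eval (m : k)).eval α = 0 → ∀ F ∈ S,
        MvPolynomial.eval (Num (fun q => (p q).eval (m : k)) α) F = 0) →
      (polyPts G p).Finite) →
    ∀ (L : Type) [Field L] [Algebra k L] (H : Type) [Group H] (x : H → Jx n d → L),
      IterFam s r e x →
      (∀ h α, (Pol (bar (x h))).eval α = 0 → ∀ F ∈ S,
        MvPolynomial.aeval (Num (bar (x h)) α) F = 0) →
      (rootPts G x).encard ≤ (B : ℕ∞) := by
  obtain ⟨δ, B, hB⟩ := gon_fields n D d s r e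
  refine ⟨B, fun k _ _ _ S G hS hG h => hB k S G hS hG ?_⟩
  obtain ⟨e, -, he⟩ := hG
  exact gonIn_of_poly (fun F hF => by
    obtain ⟨e, -, he⟩ := hS F hF
    exact ⟨e, he⟩) ⟨e, he⟩ h δ

/-- The points of degree at most `d` over the field `F` on `X`, outside of `G = 0`. -/
def degPts {k : Type} [Field k] {n : ℕ} (S : Set (MvPolynomial (Fin (n + 1)) k))
    (G : MvPolynomial (Fin (n + 1)) k) (d : ℕ) (K : Subfield k) :
    Set (Projectivization k (Fin (n + 1) → k)) :=
  {P | ∃ (v : Jx n d → k) (α : k) (h0 : Num v α ≠ 0), (∀ q, v q ∈ K) ∧ (Pol v).eval α = 0 ∧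
    (∀ F ∈ S, MvPolynomial.eval (Num v α) F = 0) ∧ MvPolynomial.eval (Num v α) G ≠ 0 ∧
    P = Projectivization.mk k (Num v α) h0}

/-- **Persistence of finiteness**, from finiteness over finitely generated fields. -/
theorem persist_fg (n D d s r e : ℕ) : ∃ B : ℕ, ∀ (k : Type) [Field k] [CharZero k]
    [IsAlgClosed k] (S : Set (MvPolynomial (Fin (n + 1)) k)) (G : MvPolynomial (Fin (n + 1)) k),
    (∀ F ∈ S, ∃ e, e ≤ D ∧ F.IsHomogeneous e) → (∃ e, e ≤ D ∧ G.IsHomogeneous e) →
    (∀ T : Finset k, (degPts S G d (Subfield.closure (T : Set k))).Finite) →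
    ∀ (L : Type) [Field L] [Algebra k L] (H : Type) [Group H] (x : H → Jx n d → L),
      IterFam s r e x →
      (∀ h α, (Pol (bar (x h))).eval α = 0 → ∀ F ∈ S,
        MvPolynomial.aeval (Num (bar (x h)) α) F = 0) →
      (rootPts G x).encard ≤ (B : ℕ∞) := by
  classical
  obtain ⟨B, hB⟩ := persist n D d s r e
  refine ⟨B, fun k _ _ _ S G hS hG h => hB k S G hS hG fun p hp => ?_⟩
  let T : Finset k := Finset.univ.biUnion fun q => (p q).support.image (p q).coeff
  refine (h T).subset ?_
  rintro P ⟨m, α, h0, h1, h2, rfl⟩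
  refine ⟨_, α, h0, fun q => ?_, h1, hp m α h1, h2, rfl⟩
  rw [eval_eq_sum]
  refine sum_mem fun i hi => mul_mem (Subfield.subset_closure ?_) (pow_mem (intCast_mem _ m) _)
  exact Finset.mem_coe.2 (Finset.mem_biUnion.2 ⟨q, Finset.mem_univ _,
    Finset.mem_image.2 ⟨i, hi, rfl⟩⟩)

end Pool.Agent.Q1.BD
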