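import Pool.Agent.Q1.BE.Free

/-!
Families of points of bounded degree: bounds which are uniform in the variety, from the absence of
curves given by identities.
-/

set_option autoImplicit false

namespace Pool.Agent.Q1.BD

open Filter Polynomial Pool.Agent.Q1.SL Pool.Agent.Y377.IL Pool.Agent.Y377.IR
  Pool.Agent.Y377.ST IntermediateField

/-- from a point over `M(t)(θ)` to curves over `ℂ` -/
theorem gonF_lim {θ : (ℕ → ℂ) →+* ℂ} (hs : Function.Surjective θ)
    (hk : ∀ c : ℕ → ℂ, θ c = 0 ↔ ∀ᶠ i in (hyperfilter ℕ : Filter ℕ), c i = 0) {n d D : ℕ}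
    {E : Type} [Field E] [Algebra ℂ E] {y : Fin (n + 1) → E} (hgon : GonPt d E y)
    {v : Fin (n + 1)} (hyv : y v = 1)
    {S : ℕ → Set (MvPolynomial (Fin (n + 1)) ℂ)}
    (hS : ∀ i, ∀ F ∈ S i, ∃ e, e ≤ D ∧ F.IsHomogeneous e)
    {G : ℕ → MvPolynomial (Fin (n + 1)) ℂ} (hG : ∀ i, ∃ e, e ≤ D ∧ (G i).IsHomogeneous e)
    (hy0 : ∀ F : ℕ → MvPolynomial (Fin (n + 1)) ℂ,
      (∀ᶠ i in (hyperfilter ℕ : Filter ℕ), F i ∈ S i) →
        MvPolynomial.aeval y (limT θ (TD (n + 1) D) F) = 0)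
    (hyG : MvPolynomial.aeval y (limT θ (TD (n + 1) D) G) ≠ 0)
    (hgi : ∀ i, GonFree (S i) (G i) d i) : False := by
  classical
  obtain ⟨⟨M, l1, l2, y', θ', hθi, hθd, hyθ, hrel, u, hu⟩⟩ := hgon
  have hyv' : y' v = 1 := by
    have h1 := (hrel (MvPolynomial.X v - 1)).2 (by
      rw [map_sub, MvPolynomial.aeval_X, map_one, hyv, sub_self])
    rw [map_sub, MvPolynomial.aeval_X, map_one] at h1
    exact sub_eq_zero.1 h1
  obtain ⟨d', hd', p, η, c, hc, hint, hη, hnum⟩ := exists_model hθd hyθ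
  have hd0 : 0 < d' := by
    have h1 := minpoly.natDegree_pos hint
    rw [← hη, pol_degree] at h1
    exact h1
  have hnum' : Num (fun q => algebraMap M[X] (AlgebraicClosure (RatFunc M)) (p q)) η =
      fun u => c * y' u := funext hnum
  have hform : ∀ (F : MvPolynomial (Fin (n + 1)) ℂ) (e : ℕ), F.IsHomogeneous e →
      MvPolynomial.aeval (Num (fun q => algebraMap M[X] (AlgebraicClosure (RatFunc M)) (p q)) η) F =
        c ^ e * MvPolynomial.aeval y' F := by
    intro F e hF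
    rw [hnum']
    exact Pool.Agent.Y837.ST.aeval_scale c y' hF
  obtain ⟨e', he', hhe⟩ := exists_deg (F := G) (D := D) (Eventually.of_forall hG)
  have hGe := limT_homog (T := TD (n + 1) D) hk hhe
  obtain ⟨p', hp'd, hp'F, hp'G⟩ := spec_gon (k := ℂ) p hint hη
    (G := limT θ (TD (n + 1) D) G) (u := u) (v := v) (by
      rw [hform _ e' hGe]
      exact mul_ne_zero (pow_ne_zero _ hc) fun h1 => hyG ((hrel _).1 h1)) (by
      rw [hnum']
      show c * y' v ≠ 0
      rw [hyv', mul_one]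
      exact hc) (by
      rw [hnum']
      show ¬ IsAlgebraic M (c * y' u / (c * y' v))
      rw [hyv', mul_one, mul_div_cancel_left₀ _ hc]
      exact hu)
  have h1 := los_gon hs hk p' (T := TD (n + 1) D) (S := S) (fun i F hF => by
      obtain ⟨e, he, hFe⟩ := hS i F hF
      exact support_TD (hFe.totalDegree_le.trans he)) (fun F hF => by
      apply hp'F
      obtain ⟨e, he, hFe⟩ := exists_deg (D := D) (by
        filter_upwards [hF] with i hi
        exact hS i _ hi)
      rw [hform _ e (limT_homog hk hFe), (hrel _).2 (hy0 F hF), mul_zero]) (G := G)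
    (Eventually.of_forall fun i => by
      obtain ⟨e, he, hFe⟩ := hG i
      exact support_TD (hFe.totalDegree_le.trans he)) hp'G
  let δ0 := ∑ q, (p' q).natDegree
  have hge : ∀ᶠ i in (hyperfilter ℕ : Filter ℕ), δ0 ≤ i := by
    have h1 : ∀ᶠ i : ℕ in cofinite, δ0 ≤ i := by
      rw [Nat.cofinite_eq_atTop]
      exact eventually_ge_atTop δ0
    exact h1.filter_mono hyperfilter_le_cofinite
  obtain ⟨i, ⟨pi, hpi1, hpi2, hpi3⟩, hi⟩ := (h1.and hge).exists
  refine hgi i _ hd' hd0 pi (fun q => ?_) hpi2 _ _ hpi3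
  refine (hpi1 q).trans (le_trans ?_ hi)
  exact Finset.single_le_sum (f := fun q => (p' q).natDegree) (fun _ _ => Nat.zero_le _)
    (Finset.mem_univ q)

/-- **Bounds which are uniform in the variety.** -/
theorem gonF_uniform (n D d s r e : ℕ) : ∃ δ B : ℕ,
    ∀ (S : Set (MvPolynomial (Fin (n + 1)) ℂ)) (G : MvPolynomial (Fin (n + 1)) ℂ),
      (∀ F ∈ S, ∃ e, e ≤ D ∧ F.IsHomogeneous e) → (∃ e, e ≤ D ∧ G.IsHomogeneous e) →
      GonFree S G d δ → ∀ (H : Type) [Group H] (x : H → Jx n d → ℂ), IterFam s r e x →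
        (∀ h α, (Pol (x h)).eval α = 0 → ∀ F ∈ S, MvPolynomial.eval (Num (x h) α) F = 0) →
        (rootPtsC G x).encard ≤ (B : ℕ∞) := by
  classical
  by_contra hcon
  have hC : ∀ i : ℕ, ∃ (S : Set (MvPolynomial (Fin (n + 1)) ℂ))
      (G : MvPolynomial (Fin (n + 1)) ℂ) (H : Type) (_ : Group H) (x : H → Jx n d → ℂ),
      (∀ F ∈ S, ∃ e, e ≤ D ∧ F.IsHomogeneous e) ∧ (∃ e, e ≤ D ∧ G.IsHomogeneous e) ∧
      GonFree S G d i ∧ IterFam s r e x ∧
      (∀ h α, (Pol (x h)).eval α = 0 → ∀ F ∈ S, MvPolynomial.eval (Num (x h) α) F = 0) ∧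
      ∃ (hs : ℕ → H) (as : ℕ → ℂ), (∀ i, (Pol (x (hs i))).eval (as i) = 0) ∧
        (∀ i, Num (x (hs i)) (as i) ≠ 0) ∧
        (∀ i, MvPolynomial.eval (Num (x (hs i)) (as i)) G ≠ 0) ∧
        ∀ i' j, i' ≤ i → j ≤ i → i' ≠ j → ∃ u v,
          Num (x (hs i')) (as i') u * Num (x (hs j)) (as j) v ≠
            Num (x (hs i')) (as i') v * Num (x (hs j)) (as j) u := by
    intro i
    by_contra h1
    refine hcon ⟨i, i, ?_⟩
    intro S G h2 h3 h4 H _ x h5 h6
    by_contra h7
    exact h1 ⟨S, G, H, _, x, h2, h3, h4, h5, h6, exists_seqG h7⟩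
  choose S G Hs iH x hS hG hgi hx hF hs as hrt h0 hoff hnp using hC
  obtain ⟨θ, hsur, hk⟩ := exists_theta
  have hΘ : ∀ f : ℕ → ℂ, (∃ n, ∀ i, n ≤ i → f i = 0) → θ f = 0 := by
    rintro f ⟨N, hN⟩
    rw [hk]
    have h1 : ∀ᶠ i : ℕ in cofinite, N ≤ i := by
      rw [Nat.cofinite_eq_atTop]
      exact eventually_ge_atTop N
    filter_upwards [h1.filter_mono hyperfilter_le_cofinite] with i hi
    exact hN i hi
  let zs : (∀ i, Hs i) → Fin (Fintype.card (Jx n d)) → ℂ := fun h j =>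
    θ fun i => x i (h i) ((Fintype.equivFin _).symm j)
  have hzs : IterVec s r e zs := (IterVec.prod fun i => (hx i).vec).map θ
  let xs : (∀ i, Hs i) → Jx n d → ℂ := fun h q => θ fun i => x i (h i) q
  have hnumS : ∀ (h : ∀ i, Hs i) (b : ℕ → ℂ) u, Num (xs h) (θ b) u =
      θ fun i => Num (x i (h i)) (b i) u := by
    intro h b u
    have h1 := num_map θ (fun q i => x i (h i) q) b u
    refine h1.trans ?_
    congr 1
    funext i
    exact (num_map (Pi.evalRingHom (fun _ : ℕ => ℂ) i) (fun q i => x i (h i) q) b u).symm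
  have hpolS : ∀ (h : ∀ i, Hs i) (b : ℕ → ℂ), (Pol (xs h)).eval (θ b) =
      θ fun i => (Pol (x i (h i))).eval (b i) := by
    intro h b
    have h1 := eval_pol_map θ (fun q i => x i (h i) q) b
    refine h1.trans ?_
    congr 1
    funext i
    exact (eval_pol_map (Pi.evalRingHom (fun _ : ℕ => ℂ) i) (fun q i => x i (h i) q) b).symm
  let a : ℕ → ∀ i, Hs i := fun m i => hs i m
  let al : ℕ → ℂ := fun m => θ fun i => as i m
  have hevS : ∀ (h : ∀ i, Hs i) (b : ℕ → ℂ) (T : Finset (Fin (n + 1) →₀ ℕ))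
      (F : ℕ → MvPolynomial (Fin (n + 1)) ℂ),
      (∀ᶠ i in (hyperfilter ℕ : Filter ℕ), (F i).support ⊆ T) →
      MvPolynomial.eval (Num (xs h) (θ b)) (limT θ T F) =
        θ fun i => MvPolynomial.eval (Num (x i (h i)) (b i)) (F i) := by
    intro h b T F hFT
    have h1 : Num (xs h) (θ b) = fun u => θ fun i => Num (x i (h i)) (b i) u :=
      funext fun u => hnumS h b u
    rw [h1]
    exact eval_limT hk hFT fun i => Num (x i (h i)) (b i)
  have hrootA : ∀ m, (Pol (xs (a m))).eval (al m) = 0 := by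
    intro m
    rw [hpolS]
    have h2 : (fun i => (Pol (x i (a m i))).eval (as i m)) = 0 := funext fun i => hrt i m
    rw [h2, map_zero]
  have hxne : ∀ m, Num (xs (a m)) (al m) ≠ 0 := fun m => by
    obtain ⟨l, hl⟩ := theta_ne hΘ (fun l i => Num (x i (hs i m)) (as i m) l) 0
      fun i _ => Function.ne_iff.1 (h0 i m)
    refine Function.ne_iff.2 ⟨l, ?_⟩
    rw [hnumS]
    exact hl
  have hcross : ∀ m m', m ≠ m' → ∃ u v,
      Num (xs (a m)) (al m) u * Num (xs (a m')) (al m') v ≠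
        Num (xs (a m)) (al m) v * Num (xs (a m')) (al m') u := by
    intro m m' hmm
    obtain ⟨⟨u, v⟩, h1⟩ := theta_ne hΘ (fun (p : Fin (n + 1) × Fin (n + 1)) i =>
      Num (x i (hs i m)) (as i m) p.1 * Num (x i (hs i m')) (as i m') p.2 -
        Num (x i (hs i m)) (as i m) p.2 * Num (x i (hs i m')) (as i m') p.1) (max m m')
      (fun i hi => by
        obtain ⟨u, v, h1⟩ := hnp i m m' ((le_max_left _ _).trans hi)
          ((le_max_right _ _).trans hi) hmm
        exact ⟨(u, v), sub_ne_zero.2 h1⟩)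
    refine ⟨u, v, fun h2 => h1 ?_⟩
    rw [hnumS, hnumS, hnumS, hnumS] at h2
    change θ (fun i => Num (x i (hs i m)) (as i m) u * Num (x i (hs i m')) (as i m') v -
        Num (x i (hs i m)) (as i m) v * Num (x i (hs i m')) (as i m') u) = 0
    have h3 : (fun i => Num (x i (hs i m)) (as i m) u * Num (x i (hs i m')) (as i m') v -
        Num (x i (hs i m)) (as i m) v * Num (x i (hs i m')) (as i m') u) =
        (fun i => Num (x i (hs i m)) (as i m) u) * (fun i => Num (x i (hs i m')) (as i m') v) -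
          (fun i => Num (x i (hs i m)) (as i m) v) *
            (fun i => Num (x i (hs i m')) (as i m') u) := rfl
    rw [h3, map_sub, map_mul, map_mul]
    exact sub_eq_zero.2 h2
  -- the coset
  obtain ⟨R, hR, hmem⟩ := hzs.tow
  obtain ⟨Nn, hn, hfi, hres⟩ := exists_res fhyp hR
  have hq : Finite ((∀ i, Hs i) ⧸ Nn) := inferInstance
  obtain ⟨y0, hy0⟩ := Finite.exists_infinite_fiber
    fun m : ℕ => (QuotientGroup.mk (a m) : (∀ i, Hs i) ⧸ Nn)
  let T : Set ℕ := (fun m : ℕ => (QuotientGroup.mk (a m) : (∀ i, Hs i) ⧸ Nn)) ⁻¹' {y0}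
  have hT : T.Infinite := Set.infinite_coe_iff.1 hy0
  obtain ⟨m0, hm0⟩ := hT.nonempty
  have hco : ∀ m ∈ T, a m * (a m0)⁻¹ ∈ Nn := by
    intro m hm
    have h1 : (QuotientGroup.mk (a m0) : (∀ i, Hs i) ⧸ Nn) = QuotientGroup.mk (a m) :=
      (Set.mem_singleton_iff.1 hm0).trans (Set.mem_singleton_iff.1 hm).symm
    exact hn.mem_comm (QuotientGroup.eq.1 h1)
  obtain ⟨K, i1, i2, Γ, ρ, hρ⟩ := hres (a m0)
  have hEng : Eng ρ.range := fun t ht hne => coset_alt hyp ghyp hρ t ht hne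
  have hmemx : ∀ q : Jx n d, (fun h => xs h q) ∈ R := by
    intro q
    have h1 := hmem (Fintype.equivFin _ q)
    have h2 : (fun h => zs h (Fintype.equivFin _ q)) = fun h => xs h q := by
      funext h
      change θ (fun i => x i (h i) ((Fintype.equivFin _).symm (Fintype.equivFin _ q))) = _
      rw [Equiv.symm_apply_apply]
    rwa [h2] at h1
  obtain ⟨e', he', hhe⟩ := exists_deg (F := G) (D := D) (Eventually.of_forall hG)
  have hGe := limT_homog (T := TD (n + 1) D) hk hhe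
  have hGsup : ∀ᶠ i in (hyperfilter ℕ : Filter ℕ), (G i).support ⊆ TD (n + 1) D :=
    Eventually.of_forall fun i => by
      obtain ⟨e, he, hFe⟩ := hG i
      exact support_TD (hFe.totalDegree_le.trans he)
  obtain ⟨E, j1, j2, y, v, hyv, hgon, hFq, hGq⟩ :=
    coset_pt (x := xs) hmemx hρ hEng a al T hT hco (fun m _ => hrootA m)
      (fun m _ => hxne m) (fun m _ m' _ hmm => hcross m m' hmm)
      {limT θ (TD (n + 1) D) G} (by
        intro G' hG' m _
        rw [Set.mem_singleton_iff.1 hG', hevS _ _ _ _ hGsup]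
        intro h1
        rw [hk] at h1
        obtain ⟨i, hi⟩ := h1.exists
        exact hoff i m hi)
  refine gonF_lim hsur hk hgon hyv hS hG (fun F hFS => ?_)
    (hGq _ (Set.mem_singleton _) e' hGe) hgi
  obtain ⟨e1, he1, hFe⟩ := exists_deg (D := D) (by
    filter_upwards [hFS] with i hi
    exact hS i _ hi)
  refine hFq _ e1 (limT_homog hk hFe) fun h α _ hα => ?_
  obtain ⟨b, rfl, hb⟩ := root_lift (fun i => x i (h i)) hα
  rw [hevS _ _ _ _ (by
    filter_upwards [hFe] with i hi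
    exact support_TD (hi.totalDegree_le.trans he1)), hk]
  filter_upwards [hFS] with i hi
  exact hF i _ _ (hb i) _ hi

end Pool.Agent.Q1.BD
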